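import Pool.Agent.CS4.Pair

/-!
# URP / UPair: compatible pairs of finite unconditional sets

As `CS4/Pair.lean` and `CS4/Bound.lean`, with the supports of the vectors.
-/

set_option autoImplicit false

namespace Pool.Agent.URP

open Finset Pool.Agent.CS4

/-- closed under the change of the sign of one coordinate -/
def Unc {d : ℕ} (A : Finset (Fin d → ℝ)) : Prop := ∀ a ∈ A, ∀ i, Function.update a i (-a i) ∈ A

/-- every vector has at most `s` nonzero coordinates -/
def SB {d : ℕ} (A : Finset (Fin d → ℝ)) (s : ℕ) : Prop :=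
  ∀ a ∈ A, (univ.filter fun i => a i ≠ 0).card ≤ s

private lemma upd_left {m n : ℕ} (x : Fin m → ℝ) (y : Fin n → ℝ) (i : Fin m) (c : ℝ) :
    Function.update (Fin.append x y) (Fin.castAdd n i) c = Fin.append (Function.update x i c) y := by
  funext k
  refine Fin.addCases (fun k => ?_) (fun k => ?_) k
  · rw [Fin.append_left]
    by_cases h : k = i
    · subst h
      rw [Function.update_self, Function.update_self]
    · rw [Function.update_of_ne h, Function.update_of_ne, Fin.append_left]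
      intro h'
      exact h (Fin.castAdd_injective m n h')
  · rw [Fin.append_right, Function.update_of_ne, Fin.append_right]
    intro h'
    have := congrArg Fin.val h'
    simp at this
    omega

private lemma upd_right {m n : ℕ} (x : Fin m → ℝ) (y : Fin n → ℝ) (i : Fin n) (c : ℝ) :
    Function.update (Fin.append x y) (Fin.natAdd m i) c = Fin.append x (Function.update y i c) := by
  funext k
  refine Fin.addCases (fun k => ?_) (fun k => ?_) k
  · rw [Fin.append_left, Function.update_of_ne, Fin.append_left]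
    intro h'
    have := congrArg Fin.val h'
    simp at this
    omega
  · rw [Fin.append_right]
    by_cases h : k = i
    · subst h
      rw [Function.update_self, Function.update_self]
    · rw [Function.update_of_ne h, Function.update_of_ne, Fin.append_right]
      intro h'
      apply h
      have := congrArg Fin.val h'
      simp at this
      exact Fin.ext this

private lemma card_append {m n : ℕ} (x : Fin m → ℝ) (y : Fin n → ℝ) :
    (univ.filter fun i => Fin.append x y i ≠ 0).card =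
      (univ.filter fun i => x i ≠ 0).card + (univ.filter fun i => y i ≠ 0).card := by
  rw [Finset.card_filter, Finset.card_filter, Finset.card_filter, Fin.sum_univ_add]
  simp only [Fin.append_left, Fin.append_right]

private lemma unc_prod {m n : ℕ} {A₁ : Finset (Fin m → ℝ)} {A₂ : Finset (Fin n → ℝ)} (h₁ : Unc A₁)
    (h₂ : Unc A₂) : Unc (prodSet A₁ A₂) := by
  intro a ha i
  rw [mem_prodSet] at ha ⊢
  obtain ⟨a₁, ha₁, a₂, ha₂, rfl⟩ := ha
  refine Fin.addCases (fun i => ?_) (fun i => ?_) i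
  · rw [upd_left, Fin.append_left]
    exact ⟨_, h₁ a₁ ha₁ i, a₂, ha₂, rfl⟩
  · rw [upd_right, Fin.append_right]
    exact ⟨a₁, ha₁, _, h₂ a₂ ha₂ i, rfl⟩

private lemma unc_sum {m n : ℕ} {B₁ : Finset (Fin m → ℝ)} {B₂ : Finset (Fin n → ℝ)} (h₁ : Unc B₁)
    (h₂ : Unc B₂) : Unc (sumSet B₁ B₂) := by
  intro a ha i
  rw [mem_sumSet] at ha ⊢
  rcases ha with ⟨b, hb, rfl⟩ | ⟨b, hb, rfl⟩
  · refine Fin.addCases (fun i => ?_) (fun i => ?_) i
    · rw [upd_left, Fin.append_left]
      exact Or.inl ⟨_, h₁ b hb i, rfl⟩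
    · rw [upd_right, Fin.append_right]
      refine Or.inl ⟨b, hb, ?_⟩
      congr 1
      simp
  · refine Fin.addCases (fun i => ?_) (fun i => ?_) i
    · rw [upd_left, Fin.append_left]
      refine Or.inr ⟨b, hb, ?_⟩
      congr 1
      simp
    · rw [upd_right, Fin.append_right]
      exact Or.inr ⟨_, h₂ b hb i, rfl⟩

private lemma sb_prod {m n : ℕ} {A₁ : Finset (Fin m → ℝ)} {A₂ : Finset (Fin n → ℝ)} {s : ℕ}
    (h₁ : SB A₁ s) (h₂ : SB A₂ s) : SB (prodSet A₁ A₂) (2 * s) := by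
  intro a ha
  rw [mem_prodSet] at ha
  obtain ⟨a₁, ha₁, a₂, ha₂, rfl⟩ := ha
  rw [card_append]
  have e1 := h₁ a₁ ha₁
  have e2 := h₂ a₂ ha₂
  omega

private lemma sb_sum {m n : ℕ} {B₁ : Finset (Fin m → ℝ)} {B₂ : Finset (Fin n → ℝ)} {t : ℕ}
    (h₁ : SB B₁ t) (h₂ : SB B₂ t) : SB (sumSet B₁ B₂) t := by
  intro a ha
  rw [mem_sumSet] at ha
  rcases ha with ⟨b, hb, rfl⟩ | ⟨b, hb, rfl⟩
  · rw [card_append]
    have e1 := h₁ b hb
    simpa using e1
  · rw [card_append]
    have e1 := h₂ b hb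
    simpa using e1

/-- pairs in all dimensions up to `n` with cardinalities at most `F`, `G`, supports at most `s`, `t` -/
private def HP (n F G s t : ℕ) : Prop :=
  ∀ d : ℕ, 1 ≤ d → d ≤ n → ∃ A B : Finset (Fin d → ℝ), Pair A B ∧ Unc A ∧ Unc B ∧ SB A s ∧ SB B t ∧
    A.card ≤ F ∧ B.card ≤ G

private theorem HP.swap {n F G s t : ℕ} (h : HP n F G s t) : HP n G F t s := by
  intro d h1 h2
  obtain ⟨A, B, h3, h4, h5, h6, h7, h8, h9⟩ := h d h1 h2
  exact ⟨B, A, h3.swap, h5, h4, h7, h6, h9, h8⟩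

private theorem HP.double {n F G s t : ℕ} (h : HP n F G s t) (hn : 1 ≤ n) :
    HP (2 * n) (F ^ 2) (2 * G) (2 * s) t := by
  intro d h1 h2
  by_cases hd : d ≤ n
  · obtain ⟨A, B, h3, h4, h5, h6, h7, h8, h9⟩ := h d h1 hd
    refine ⟨A, B, h3, h4, h5, fun a ha => (h6 a ha).trans (by omega), h7, le_trans h8 ?_,
      le_trans h9 (by omega)⟩
    exact Nat.le_self_pow (by norm_num) F
  · obtain ⟨e, he⟩ : ∃ e, d = n + e := ⟨d - n, by omega⟩
    subst he
    obtain ⟨A, B, h3, h4, h5, h6, h7, h8, h9⟩ := h n hn le_rfl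
    obtain ⟨A', B', h3', h4', h5', h6', h7', h8', h9'⟩ := h e (by omega) (by omega)
    refine ⟨prodSet A A', sumSet B B', h3.comb hn (by omega) h3', unc_prod h4 h4', unc_sum h5 h5',
      sb_prod h6 h6', sb_sum h7 h7', ?_, ?_⟩
    · refine le_trans (card_prodSet_le _ _) ?_
      calc _ ≤ F * F := Nat.mul_le_mul h8 h8'
        _ = F ^ 2 := by ring
    · refine le_trans (card_sumSet_le _ _) ?_
      omega

private theorem hp_one : HP 1 2 2 1 1 := by
  intro d h1 h2
  obtain rfl : d = 1 := by omega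
  have hunc : Unc ({1, -1} : Finset (Fin 1 → ℝ)) := by
    intro a ha i
    simp only [Finset.mem_insert, Finset.mem_singleton] at ha ⊢
    have h0 : Function.update a i (-a i) = -a := by
      funext k
      rw [Subsingleton.elim k i, Function.update_self]
      rfl
    rw [h0]
    rcases ha with rfl | rfl <;> simp
  have hsb : SB ({1, -1} : Finset (Fin 1 → ℝ)) 1 := by
    intro a _
    exact (Finset.card_le_univ _).trans (by simp)
  refine ⟨{1, -1}, {1, -1}, ⟨?_, ?_, ?_, ?_, ?_⟩, hunc, hunc, hsb, hsb, Finset.card_le_two,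
    Finset.card_le_two⟩
  · intro a ha
    simp only [Finset.mem_insert, Finset.mem_singleton] at ha ⊢
    rcases ha with rfl | rfl <;> simp
  · intro a ha
    simp only [Finset.mem_insert, Finset.mem_singleton] at ha ⊢
    rcases ha with rfl | rfl <;> simp
  · intro u hu
    have h0 : u 0 ≠ 0 := fun h => hu (by funext i; rw [Subsingleton.elim i 0]; exact h)
    rcases lt_or_gt_of_ne h0 with h | h
    · exact ⟨-1, by simp, by simp [dotProduct]; linarith⟩
    · exact ⟨1, by simp, by simp [dotProduct]; linarith⟩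
  · intro u hu
    have h0 : u 0 ≠ 0 := fun h => hu (by funext i; rw [Subsingleton.elim i 0]; exact h)
    rcases lt_or_gt_of_ne h0 with h | h
    · exact ⟨-1, by simp, by simp [dotProduct]; linarith⟩
    · exact ⟨1, by simp, by simp [dotProduct]; linarith⟩
  · intro u hu a ha b hb hA hB
    have h0 : u 0 ≠ 0 := fun h => hu (by funext i; rw [Subsingleton.elim i 0]; exact h)
    simp only [Finset.mem_insert, Finset.mem_singleton] at ha hb hA hB
    have hA1 := hA 1 (Or.inl rfl)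
    have hA2 := hA (-1) (Or.inr rfl)
    have hB1 := hB 1 (Or.inl rfl)
    have hB2 := hB (-1) (Or.inr rfl)
    rcases lt_or_gt_of_ne h0 with h | h <;> rcases ha with rfl | rfl <;> rcases hb with rfl | rfl <;>
      simp [dotProduct] at hA1 hA2 hB1 hB2 ⊢ <;> linarith

private theorem hp_four (j : ℕ) :
    HP (4 ^ j) (2 ^ (2 * 2 ^ j - 1)) (2 ^ (3 * 2 ^ j - 2)) (2 ^ j) (2 ^ j) := by
  induction j with
  | zero => simpa using hp_one
  | succ j ih =>
    have h0 : 1 ≤ 2 ^ j := Nat.one_le_two_pow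
    have h1 : 1 ≤ 4 ^ j := Nat.one_le_pow _ _ (by norm_num)
    have h2 := ((ih.double h1).swap.double (by omega)).swap
    have e1 : 2 * (2 * 4 ^ j) = 4 ^ (j + 1) := by rw [pow_succ]; ring
    have e2 : 2 * (2 ^ (2 * 2 ^ j - 1)) ^ 2 = 2 ^ (2 * 2 ^ (j + 1) - 1) := by
      rw [← pow_mul, ← pow_succ', pow_succ 2 j]
      congr 1
      omega
    have e3 : (2 * 2 ^ (3 * 2 ^ j - 2)) ^ 2 = 2 ^ (3 * 2 ^ (j + 1) - 2) := by
      rw [← pow_succ', ← pow_mul, pow_succ 2 j]
      congr 1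
      omega
    have e4 : 2 * 2 ^ j = 2 ^ (j + 1) := by rw [pow_succ]; ring
    rw [e1, e2, e3, e4] at h2
    exact h2

private theorem hp_two_four (j : ℕ) :
    HP (2 * 4 ^ j) (2 ^ (4 * 2 ^ j - 2)) (2 ^ (3 * 2 ^ j - 1)) (2 * 2 ^ j) (2 ^ j) := by
  have h0 : 1 ≤ 2 ^ j := Nat.one_le_two_pow
  have h1 : 1 ≤ 4 ^ j := Nat.one_le_pow _ _ (by norm_num)
  have h2 := (hp_four j).double h1
  have e2 : (2 ^ (2 * 2 ^ j - 1)) ^ 2 = 2 ^ (4 * 2 ^ j - 2) := by
    rw [← pow_mul]
    congr 1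
    omega
  have e3 : 2 * 2 ^ (3 * 2 ^ j - 2) = 2 ^ (3 * 2 ^ j - 1) := by
    rw [← pow_succ']
    congr 1
    omega
  rw [e2, e3] at h2
  exact h2

theorem upair (d : ℕ) (hd : 1 ≤ d) : ∃ (A B : Finset (Fin d → ℝ)) (s t : ℕ),
    Pair A B ∧ Unc A ∧ Unc B ∧ SB A s ∧ SB B t ∧
    ((A.card * B.card * 2 ^ (s + t) : ℕ) : ℝ) ≤ (2:ℝ) ^ (10 * Real.sqrt d) := by
  obtain ⟨i, hi, hmin⟩ : ∃ i, d ≤ 2 ^ i ∧ ∀ k, k < i → ¬ d ≤ 2 ^ k := by
    have hex : ∃ i, d ≤ 2 ^ i := ⟨d, Nat.lt_two_pow_self.le⟩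
    exact ⟨Nat.find hex, Nat.find_spec hex, fun k hk => Nat.find_min hex hk⟩
  have key : ∀ (c e : ℕ), c ≤ 2 ^ e → (e : ℝ) ≤ 10 * √d → (c : ℝ) ≤ 2 ^ (10 * √d) := by
    intro c e h1 h2
    calc (c : ℝ) ≤ (2 : ℝ) ^ e := by exact_mod_cast h1
      _ = (2 : ℝ) ^ (e : ℝ) := by rw [Real.rpow_natCast]
      _ ≤ 2 ^ (10 * √d) := Real.rpow_le_rpow_of_exponent_le (by norm_num) h2
  have hd1 : (1 : ℝ) ≤ d := by exact_mod_cast hd
  rcases Nat.even_or_odd' i with ⟨j, hj | hj⟩
  · subst hj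
    have h0 : 1 ≤ 2 ^ j := Nat.one_le_two_pow
    obtain ⟨A, B, h3, h4, h5, h6, h7, h8, h9⟩ := hp_four j d hd (by
      rw [pow_mul] at hi
      exact hi)
    refine ⟨A, B, 2 ^ j, 2 ^ j, h3, h4, h5, h6, h7, key _ (7 * 2 ^ j - 3) ?_ ?_⟩
    · calc A.card * B.card * 2 ^ (2 ^ j + 2 ^ j) ≤
            2 ^ (2 * 2 ^ j - 1) * 2 ^ (3 * 2 ^ j - 2) * 2 ^ (2 ^ j + 2 ^ j) := by gcongr
        _ = 2 ^ (7 * 2 ^ j - 3) := by
          rw [← pow_add, ← pow_add]
          congr 1
          omega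
    · have h10 : (7 / 10 * 2 ^ j : ℝ) ≤ √d := by
        apply Real.le_sqrt_of_sq_le
        rcases Nat.eq_zero_or_pos j with rfl | hj0
        · norm_num
          linarith
        · have h5' := hmin (2 * j - 1) (by omega)
          push Not at h5'
          have h6' : (2 ^ (2 * j - 1) : ℝ) ≤ d := by exact_mod_cast h5'.le
          calc (7 / 10 * (2 : ℝ) ^ j) ^ 2 = 49 / 50 * 2 ^ (2 * j - 1) := by
                have : (2 : ℝ) ^ (2 * j) = 2 * 2 ^ (2 * j - 1) := by
                  rw [← pow_succ']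
                  congr 1
                  omega
                rw [mul_pow, ← pow_mul, mul_comm j 2, this]
                ring
            _ ≤ d := by
              have : (0 : ℝ) < 2 ^ (2 * j - 1) := by positivity
              linarith
      have h11 : ((7 * 2 ^ j - 3 : ℕ) : ℝ) ≤ 7 * 2 ^ j := by
        calc ((7 * 2 ^ j - 3 : ℕ) : ℝ) ≤ ((7 * 2 ^ j : ℕ) : ℝ) := by exact_mod_cast Nat.sub_le _ _
          _ = 7 * 2 ^ j := by push_cast; ring
      linarith
  · subst hj
    have h0 : 1 ≤ 2 ^ j := Nat.one_le_two_pow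
    obtain ⟨A, B, h3, h4, h5, h6, h7, h8, h9⟩ := hp_two_four j d hd (by
      rw [pow_succ, pow_mul, show (2 : ℕ) ^ 2 = 4 from rfl, mul_comm] at hi
      exact hi)
    refine ⟨A, B, 2 * 2 ^ j, 2 ^ j, h3, h4, h5, h6, h7, key _ (10 * 2 ^ j - 3) ?_ ?_⟩
    · calc A.card * B.card * 2 ^ (2 * 2 ^ j + 2 ^ j) ≤
            2 ^ (4 * 2 ^ j - 2) * 2 ^ (3 * 2 ^ j - 1) * 2 ^ (2 * 2 ^ j + 2 ^ j) := by gcongr
        _ = 2 ^ (10 * 2 ^ j - 3) := by
          rw [← pow_add, ← pow_add]
          congr 1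
          omega
    · have h10 : ((2 : ℝ) ^ j) ≤ √d := by
        apply Real.le_sqrt_of_sq_le
        have h5' := hmin (2 * j) (by omega)
        push Not at h5'
        have h6' : (2 ^ (2 * j) : ℝ) ≤ d := by exact_mod_cast h5'.le
        rw [← pow_mul, mul_comm j 2]
        exact h6'
      have h11 : ((10 * 2 ^ j - 3 : ℕ) : ℝ) ≤ 10 * 2 ^ j := by
        calc ((10 * 2 ^ j - 3 : ℕ) : ℝ) ≤ ((10 * 2 ^ j : ℕ) : ℝ) := by
              exact_mod_cast Nat.sub_le _ _
          _ = 10 * 2 ^ j := by push_cast; ring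
      linarith

end Pool.Agent.URP
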