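import Pool.Agent.URP.Herm
import Pool.Agent.URP.UPair

/-!
# URP / Upper: unconditional simplicial polytopes without centrally symmetric 4-cycles, with few vertices
-/

namespace Pool.Agent.URP

open Finset Pool.Agent.CS4

theorem unc_upper (d : ℕ) (hd : 1 ≤ d) : ∃ X : Finset (Fin d → ℝ),
    Submodule.span ℝ (X : Set (Fin d → ℝ)) = ⊤ ∧
    (∀ v ∈ X, ∀ i, Function.update v i (-v i) ∈ X) ∧ Simplicial X ∧
    (∀ u ∈ X, ∀ v ∈ X, ¬(Edge X u v ∧ Edge X u (-v))) ∧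
    (X.card : ℝ) ≤ (2:ℝ) ^ (10 * Real.sqrt d) := by
  classical
  obtain ⟨A, B, s, t, hP, hA, hB, sA, sB, hc⟩ := upair d hd
  let R : Finset (Fin d → ℝ) := (A ×ˢ B).image fun p => p.1 + p.2
  have hR : ∀ w, w ∈ R ↔ ∃ a ∈ A, ∃ b ∈ B, a + b = w := by
    intro w
    simp only [R, Finset.mem_image, Finset.mem_product, Prod.exists]
    constructor
    · rintro ⟨a, b, ⟨h1, h2⟩, h3⟩
      exact ⟨a, h1, b, h2, h3⟩
    · rintro ⟨a, h1, b, h2, h3⟩
      exact ⟨a, b, ⟨h1, h2⟩, h3⟩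
  have hcard : R.card ≤ A.card * B.card :=
    Finset.card_image_le.trans (Finset.card_product A B).le
  have h1 : ∀ v ∈ R, ∀ i, Function.update v i (-v i) ∈ R := by
    intro v hv i
    obtain ⟨a, ha, b, hb, rfl⟩ := (hR v).1 hv
    refine (hR _).2 ⟨_, hA a ha i, _, hB b hb i, ?_⟩
    ext j
    by_cases h : j = i
    · subst h; simp; ring
    · simp [Function.update_of_ne h]
  have h2 : ∀ r ∈ R, (supp r).card ≤ s + t := by
    intro r hr
    obtain ⟨a, ha, b, hb, rfl⟩ := (hR r).1 hr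
    have e1 := sA a ha
    have e2 := sB b hb
    have e3 : supp (a + b) ⊆ (univ.filter fun i => a i ≠ 0) ∪ (univ.filter fun i => b i ≠ 0) := by
      intro i hi
      simp only [supp, Finset.mem_filter, Finset.mem_univ, true_and, Pi.add_apply, Finset.mem_union] at hi ⊢
      by_contra hcon
      push Not at hcon
      exact hi (by rw [hcon.1, hcon.2, add_zero])
    exact (Finset.card_le_card e3).trans ((Finset.card_union_le _ _).trans (by omega))
  have h3 : ∀ x : Fin d → ℝ, x ≠ 0 → ∃ r ∈ R, 0 < r ⬝ᵥ x := by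
    intro x hx
    obtain ⟨a, ha, e1⟩ := hP.spanA x hx
    obtain ⟨b, hb, e2⟩ := hP.spanB x hx
    refine ⟨a + b, (hR _).2 ⟨a, ha, b, hb, rfl⟩, ?_⟩
    rw [add_dotProduct, dotProduct_comm a, dotProduct_comm b]
    linarith
  have h4 : ∀ u ∈ R, ∀ v ∈ R, ∀ x y : Fin d → ℝ, x ≠ 0 → y ≠ 0 → (∀ w ∈ R, w ⬝ᵥ x ≤ u ⬝ᵥ x) →
      (∀ w ∈ R, w ⬝ᵥ x ≤ v ⬝ᵥ x) → (∀ w ∈ R, w ⬝ᵥ y ≤ u ⬝ᵥ y) → (∀ w ∈ R, w ⬝ᵥ y ≤ -v ⬝ᵥ y) →
      False := by
    intro u hu v hv x y hx hy a1 a2 a3 a4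
    obtain ⟨a, ha, b, hb, rfl⟩ := (hR u).1 hu
    obtain ⟨a', ha', b', hb', rfl⟩ := (hR v).1 hv
    have c1 : 0 < a ⬝ᵥ b' := by
      refine hP.comp x hx a ha b' hb' (fun w hw => ?_) (fun w hw => ?_)
      · have := a1 _ ((hR _).2 ⟨w, hw, b, hb, rfl⟩)
        rw [add_dotProduct, add_dotProduct] at this
        rw [dotProduct_comm x, dotProduct_comm x]
        linarith
      · have := a2 _ ((hR _).2 ⟨a', ha', w, hw, rfl⟩)
        rw [add_dotProduct, add_dotProduct] at this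
        rw [dotProduct_comm x, dotProduct_comm x]
        linarith
    have c2 : 0 < a ⬝ᵥ (-b') := by
      refine hP.comp y hy a ha (-b') (hP.symB _ hb') (fun w hw => ?_) (fun w hw => ?_)
      · have := a3 _ ((hR _).2 ⟨w, hw, b, hb, rfl⟩)
        rw [add_dotProduct, add_dotProduct] at this
        rw [dotProduct_comm y, dotProduct_comm y]
        linarith
      · have := a4 _ ((hR _).2 ⟨-a', hP.symA _ ha', w, hw, rfl⟩)
        rw [neg_add, add_dotProduct, add_dotProduct] at this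
        rw [dotProduct_comm y, dotProduct_comm y]
        linarith
    rw [dotProduct_neg] at c2
    linarith
  obtain ⟨X, g1, g2, g3, g4, g5⟩ := exists_unc h1 h2 h3 h4
  refine ⟨X, g1, g2, g3, g4, le_trans ?_ hc⟩
  exact_mod_cast g5.trans (Nat.mul_le_mul_right _ hcard)

end Pool.Agent.URP
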