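import Pool.Agent.URP.Face

/-!
# URP / Vert: the members of `X` in proper faces of `conv X` are the vertices, if `conv X` is simplicial
-/

namespace Pool.Agent.URP

open Finset

theorem vert {d : ℕ} {X : Finset (Fin d → ℝ)} (hspan : Submodule.span ℝ (X : Set (Fin d → ℝ)) = ⊤)
    (hsym : ∀ v ∈ X, -v ∈ X) (hunc : ∀ v ∈ X, ∀ i, Function.update v i (-v i) ∈ X)
    (hs : Simplicial X) (he : ∀ u ∈ X, ∀ v ∈ X, ¬(Edge X u v ∧ Edge X u (-v))) :
    ∃ Y : Finset (Fin d → ℝ), Submodule.span ℝ (Y : Set (Fin d → ℝ)) = ⊤ ∧ (∀ v ∈ Y, FaceSet Y {v}) ∧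
      (∀ v ∈ Y, ∀ i, Function.update v i (-v i) ∈ Y) ∧ Simplicial Y ∧
      (∀ u ∈ Y, ∀ v ∈ Y, ¬(Edge Y u v ∧ Edge Y u (-v))) ∧ Y.card ≤ X.card := by
  classical
  let Y := X.filter fun x => ∃ S, FaceSet X S ∧ x ∈ S
  have hY : ∀ x, x ∈ Y ↔ x ∈ X ∧ ∃ S, FaceSet X S ∧ x ∈ S := fun x => by simp [Y]
  -- the maximum of a functional which is positive somewhere
  have hmax : ∀ f : (Fin d → ℝ) →ₗ[ℝ] ℝ, ∀ c > 0, (∀ w ∈ Y, f w ≤ c) → ∀ w ∈ X, f w ≤ c := by
    intro f c hc hle w hw
    obtain ⟨x, hx, hxm⟩ := Finset.exists_max_image X f ⟨w, hw⟩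
    rcases le_or_gt (f x) 0 with h | h
    · exact (hxm w hw).trans (h.trans hc.le)
    · have : x ∈ Y := (hY x).2 ⟨hx, {w | w ∈ X ∧ f w = f x}, ⟨f, f x, h, hxm, rfl⟩, hx, rfl⟩
      exact (hxm w hw).trans (hle x this)
  have hYX : ∀ S, FaceSet Y S ↔ FaceSet X S := by
    intro S
    have hset : ∀ (f : (Fin d → ℝ) →ₗ[ℝ] ℝ) (c : ℝ), 0 < c → (∀ w ∈ X, f w ≤ c) →
        {w | w ∈ Y ∧ f w = c} = {w | w ∈ X ∧ f w = c} := by
      intro f c hc hle
      ext w
      simp only [Set.mem_ofPred_eq]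
      constructor
      · rintro ⟨h1, h2⟩
        exact ⟨((hY w).1 h1).1, h2⟩
      · rintro ⟨h1, h2⟩
        exact ⟨(hY w).2 ⟨h1, _, ⟨f, c, hc, hle, rfl⟩, h1, h2⟩, h2⟩
    constructor
    · rintro ⟨f, c, hc, hle, rfl⟩
      exact ⟨f, c, hc, hmax f c hc hle, hset f c hc (hmax f c hc hle)⟩
    · rintro ⟨f, c, hc, hle, rfl⟩
      exact ⟨f, c, hc, fun w hw => hle w ((hY w).1 hw).1, (hset f c hc hle).symm⟩
  have hsY : Simplicial Y := fun S hS => hs S ((hYX S).1 hS)
  refine ⟨Y, ?_, ?_, ?_, hsY, ?_, Finset.card_filter_le _ _⟩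
  · by_contra hne
    obtain ⟨f, hf, hle⟩ := Submodule.exists_le_ker_of_lt_top _ (lt_top_iff_ne_top.2 hne)
    have hX0 : ∃ x ∈ X, f x ≠ 0 := by
      by_contra hcon
      push Not at hcon
      apply hf
      have : (⊤ : Submodule ℝ (Fin d → ℝ)) ≤ LinearMap.ker f := by
        rw [← hspan]
        exact Submodule.span_le.2 fun x hx => hcon x hx
      exact LinearMap.ker_eq_top.1 (top_le_iff.1 this)
    obtain ⟨x, hx, hfx⟩ := hX0
    have hX1 : ∃ x ∈ X, 0 < f x := by
      rcases lt_or_gt_of_ne hfx with h | h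
      · exact ⟨-x, hsym x hx, by rw [map_neg]; linarith⟩
      · exact ⟨x, hx, h⟩
    obtain ⟨x, hx, hfx⟩ := hX1
    have h1 := hmax f (f x / 2) (by linarith) (fun w hw => by
      have : f w = 0 := hle (Submodule.subset_span hw)
      rw [this]; linarith) x hx
    linarith
  · intro v hv
    obtain ⟨h1, S, hS, h2⟩ := (hY v).1 hv
    exact (hYX _).2 (faceSet_single hs ⟨S, hS, h2, h2⟩)
  · intro v hv i
    obtain ⟨h1, S, ⟨f, c, hc, hle, rfl⟩, _, h2⟩ := (hY v).1 hv
    -- the change of the sign of the coordinate `i`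
    let D : (Fin d → ℝ) →ₗ[ℝ] (Fin d → ℝ) :=
      { toFun := fun x => Function.update x i (-x i)
        map_add' := fun x y => by
          ext j
          by_cases h : j = i
          · subst h; simp; ring
          · simp [Function.update_of_ne h]
        map_smul' := fun r x => by
          ext j
          by_cases h : j = i
          · subst h; simp
          · simp [Function.update_of_ne h] }
    have hDD : ∀ x, D (D x) = x := by
      intro x
      ext j
      by_cases h : j = i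
      · subst h; simp [D]
      · simp [D, Function.update_of_ne h]
    refine (hY _).2 ⟨hunc v h1 i, {w | w ∈ X ∧ (f ∘ₗ D) w = c}, ⟨f ∘ₗ D, c, hc, ?_, rfl⟩, hunc v h1 i, ?_⟩
    · intro w hw
      exact hle _ (hunc w hw i)
    · change f (D (D v)) = c
      rw [hDD]; exact h2
  · rintro u hu v hv ⟨⟨h1, h2⟩, ⟨h3, h4⟩⟩
    exact he u ((hY u).1 hu).1 v ((hY v).1 hv).1 ⟨⟨h1, (hYX _).1 h2⟩, ⟨h3, (hYX _).1 h4⟩⟩

/-- a set which is closed under the changes of sign of one coordinate is symmetric -/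
theorem neg_mem {d : ℕ} {X : Finset (Fin d → ℝ)}
    (hunc : ∀ v ∈ X, ∀ i, Function.update v i (-v i) ∈ X) : ∀ v ∈ X, -v ∈ X := by
  classical
  intro v hv
  have : ∀ S : Finset (Fin d), (fun i => if i ∈ S then -v i else v i) ∈ X := by
    intro S
    induction S using Finset.induction_on with
    | empty => simpa using hv
    | insert a S ha ih =>
      have h1 := hunc _ ih a
      have h2 : (fun i => if i ∈ insert a S then -v i else v i) =
          Function.update (fun i => if i ∈ S then -v i else v i) a (-(if a ∈ S then -v a else v a)) := by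
        ext j
        by_cases h : j = a
        · subst h; simp [ha]
        · simp [h]
      rw [h2]
      exact h1
  have h := this Finset.univ
  have h' : (fun i => if i ∈ (Finset.univ : Finset (Fin d)) then -v i else v i) = -v := by
    ext j; simp
  rwa [h'] at h

end Pool.Agent.URP
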