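import Mathlib

namespace Pool.Agent.URP

open MeasureTheory Set Polynomial

variable {E : Type} [NormedAddCommGroup E] [InnerProductSpace ℝ E] [FiniteDimensional ℝ E]

theorem det_interp (A : E →L[ℝ] E) (s : Finset ℝ) (hs : Module.finrank ℝ E < s.card) :
    (ContinuousLinearMap.id ℝ E + A).det =
      ∑ t ∈ s, (Lagrange.basis s id t).eval 1 * (ContinuousLinearMap.id ℝ E + t • A).det := by
  classical
  let b := Module.finBasis ℝ E
  let M := LinearMap.toMatrix b b (A : E →ₗ[ℝ] E)
  let p : ℝ[X] := ((X : ℝ[X]) • M.map C + (1 : Matrix _ _ ℝ).map C).det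
  have hdeg : p.natDegree ≤ Module.finrank ℝ E := by
    have := natDegree_det_X_add_C_le M (1 : Matrix _ _ ℝ)
    simpa [p] using this
  have hev : ∀ t : ℝ, p.eval t = (ContinuousLinearMap.id ℝ E + t • A).det := by
    intro t
    have h1 : (ContinuousLinearMap.id ℝ E + t • A).det
        = (LinearMap.toMatrix b b ((ContinuousLinearMap.id ℝ E + t • A : E →L[ℝ] E) : E →ₗ[ℝ] E)).det := by
      rw [LinearMap.det_toMatrix]
    rw [h1]
    have h2 : LinearMap.toMatrix b b ((ContinuousLinearMap.id ℝ E + t • A : E →L[ℝ] E) : E →ₗ[ℝ] E)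
        = 1 + t • M := by
      have : ((ContinuousLinearMap.id ℝ E + t • A : E →L[ℝ] E) : E →ₗ[ℝ] E)
          = LinearMap.id + t • (A : E →ₗ[ℝ] E) := by
        ext x; simp
      rw [this, map_add, map_smul, LinearMap.toMatrix_id]
    rw [h2]
    have h3 : p.eval t = ((evalRingHom t).mapMatrix ((X : ℝ[X]) • M.map C + (1 : Matrix _ _ ℝ).map C)).det := by
      rw [← RingHom.map_det]; rfl
    rw [h3]
    congr 1
    ext i j
    simp [Matrix.add_apply, Matrix.smul_apply, Matrix.map_apply, Matrix.one_apply]
    split_ifs <;> simp [mul_comm, add_comm]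
  have hlt : p.degree < s.card := by
    refine lt_of_le_of_lt degree_le_natDegree ?_
    exact_mod_cast lt_of_le_of_lt hdeg hs
  have hint := Lagrange.eq_interpolate (s := s) (v := id) (f := p) (fun a _ b _ h => h) hlt
  have h1 : (ContinuousLinearMap.id ℝ E + A).det = p.eval 1 := by rw [hev 1, one_smul]
  rw [h1, hint, Lagrange.interpolate_apply, eval_finsetSum]
  refine Finset.sum_congr rfl fun t _ => ?_
  rw [eval_mul, eval_C, mul_comm]
  congr 1
  exact hev t

/-- perturbations of the identity by a Lipschitz map are bijective -/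
theorem bij_pert (h : E → E) {L : NNReal} (hL : LipschitzWith L h) {t : ℝ} (ht0 : 0 < t) (ht : t * L < 1) :
    Function.Bijective (fun x => x + t • h x) := by
  rcases subsingleton_or_nontrivial E with hE | hE
  · exact ⟨fun a b _ => Subsingleton.elim a b, fun a => ⟨a, Subsingleton.elim _ _⟩⟩
  have hap : ApproximatesLinearOn (fun x => x + t • h x)
      ((ContinuousLinearEquiv.refl ℝ E : E ≃L[ℝ] E) : E →L[ℝ] E) univ (Real.toNNReal t * L) := by
    intro x _ y _
    have h1 : x + t • h x - (y + t • h y) - ((ContinuousLinearEquiv.refl ℝ E : E ≃L[ℝ] E) : E →L[ℝ] E) (x - y)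
        = t • (h x - h y) := by
      simp only [ContinuousLinearEquiv.coe_refl, ContinuousLinearMap.id_apply, smul_sub]
      abel
    rw [h1, norm_smul, Real.norm_of_nonneg ht0.le]
    have := hL.dist_le_mul x y
    rw [dist_eq_norm, dist_eq_norm] at this
    calc t * ‖h x - h y‖ ≤ t * (L * ‖x - y‖) := by gcongr
      _ = _ := by push_cast; rw [Real.coe_toNNReal _ ht0.le]; ring
  have hc : Subsingleton E ∨ (Real.toNNReal t * L : NNReal) <
      ‖(((ContinuousLinearEquiv.refl ℝ E : E ≃L[ℝ] E).symm : E ≃L[ℝ] E) : E →L[ℝ] E)‖₊⁻¹ := by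
    right
    have : ‖(((ContinuousLinearEquiv.refl ℝ E : E ≃L[ℝ] E).symm : E ≃L[ℝ] E) : E →L[ℝ] E)‖₊ = 1 := by
      rw [ContinuousLinearEquiv.refl_symm, ContinuousLinearEquiv.coe_refl]
      ext
      simp
    rw [this, inv_one, ← NNReal.coe_lt_coe]
    push_cast
    rw [Real.coe_toNNReal _ ht0.le]
    exact ht
  refine ⟨?_, hap.surjective hc⟩
  have := hap.injOn hc
  exact fun a b hab => this (mem_univ a) (mem_univ b) hab

theorem no_retract [MeasurableSpace E] [BorelSpace E] {R : ℝ} (hR : 0 < R) (r : E → E) {L : NNReal}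
    (hL : LipschitzWith L r) (hid : ∀ x, R ≤ ‖x‖ → r x = x) (hn : ∀ x, ‖x‖ < R → ‖r x‖ = R)
    (hd : ∀ x, ‖x‖ < R → DifferentiableAt ℝ r x) : False := by
  classical
  set μ : Measure E := volume
  set U : Set E := Metric.ball 0 R with hU
  have hUm : MeasurableSet U := measurableSet_ball
  set h : E → E := fun x => r x - x with hh
  have hhL : LipschitzWith (L + 1) h := hL.sub LipschitzWith.id
  set D : E → E →L[ℝ] E := fun x => fderiv ℝ r x - ContinuousLinearMap.id ℝ E with hD
  have hDn : ∀ x, ‖D x‖ ≤ L + 1 := by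
    intro x
    calc ‖D x‖ ≤ ‖fderiv ℝ r x‖ + ‖ContinuousLinearMap.id ℝ E‖ := norm_sub_le _ _
      _ ≤ L + 1 := add_le_add (norm_fderiv_le_of_lipschitz ℝ hL) ContinuousLinearMap.norm_id_le
  have hder : ∀ x ∈ U, HasFDerivAt h (D x) x := by
    intro x hx
    have hx' : ‖x‖ < R := by simpa [hU] using hx
    exact (hd x hx').hasFDerivAt.sub (hasFDerivAt_id x)
  -- positivity of the determinant near the identity
  obtain ⟨δ, hδ, hdet⟩ : ∃ δ > 0, ∀ A : E →L[ℝ] E, ‖A‖ < δ → 0 < (ContinuousLinearMap.id ℝ E + A).det := by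
    have hc : Continuous fun A : E →L[ℝ] E => (ContinuousLinearMap.id ℝ E + A).det :=
      ContinuousLinearMap.continuous_det.comp (continuous_const.add continuous_id)
    have h0 : (0:ℝ) < (ContinuousLinearMap.id ℝ E + (0 : E →L[ℝ] E)).det := by
      rw [add_zero]
      have : (ContinuousLinearMap.id ℝ E).det = 1 := by
        simp [ContinuousLinearMap.det]
      rw [this]; exact one_pos
    obtain ⟨δ, hδ, hb⟩ := Metric.isOpen_iff.1 (isOpen_lt continuous_const hc) 0 h0
    refine ⟨δ, hδ, fun A hA => hb ?_⟩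
    simpa using hA
  set ε : ℝ := min δ (1 / 2) / (L + 2) with hε
  have hL2 : (0:ℝ) < L + 2 := by positivity
  have hε0 : 0 < ε := div_pos (lt_min hδ (by norm_num)) hL2
  obtain ⟨s, hs, hsc⟩ := (Set.Ioo_infinite hε0).exists_subset_card_eq (Module.finrank ℝ E + 1)
  have key : ∀ t ∈ s, IntegrableOn (fun x => (ContinuousLinearMap.id ℝ E + t • D x).det) U μ ∧
      ∫ x in U, (ContinuousLinearMap.id ℝ E + t • D x).det ∂μ = (μ U).toReal := by
    intro t hts
    obtain ⟨ht0, ht1⟩ := hs hts
    have ht2 : t * (L + 1) < min δ (1 / 2) := by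
      have : t * (L + 2) < min δ (1 / 2) := by rwa [hε, lt_div_iff₀ hL2] at ht1
      nlinarith
    have hbij := bij_pert h hhL ht0 (by
      push_cast
      exact lt_trans ht2 (lt_of_le_of_lt (min_le_right _ _) (by norm_num)))
    have himg : (fun x => x + t • h x) '' U = U := by
      apply Subset.antisymm
      · rintro _ ⟨x, hx, rfl⟩
        by_contra hc
        have hc' : R ≤ ‖x + t • h x‖ := by simpa [hU] using hc
        have h0 : h (x + t • h x) = 0 := by
          show r (x + t • h x) - (x + t • h x) = 0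
          rw [hid _ hc', sub_self]
        have h1 : (x + t • h x) + t • h (x + t • h x) = x + t • h x := by
          rw [h0, smul_zero, add_zero]
        have := hbij.1 h1
        rw [this] at hc'
        simp only [hU, Metric.mem_ball, dist_zero_right] at hx
        linarith
      · intro y hy
        obtain ⟨x, hx⟩ := hbij.2 y
        refine ⟨x, ?_, hx⟩
        by_contra hc
        have hc' : R ≤ ‖x‖ := by simpa [hU] using hc
        simp only at hx
        have : h x = 0 := by rw [hh]; simp only; rw [hid _ hc']; simp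
        rw [this, smul_zero, add_zero] at hx
        rw [hx] at hc'
        simp only [hU, Metric.mem_ball, dist_zero_right] at hy
        linarith
    have hf' : ∀ x ∈ U, HasFDerivWithinAt (fun x => x + t • h x)
        (ContinuousLinearMap.id ℝ E + t • D x) U x := fun x hx =>
      ((hasFDerivAt_id x).add ((hder x hx).const_smul t)).hasFDerivWithinAt
    have hinj : InjOn (fun x => x + t • h x) U := hbij.1.injOn
    have hpos : ∀ x ∈ U, |(ContinuousLinearMap.id ℝ E + t • D x).det| • (1:ℝ)
        = (ContinuousLinearMap.id ℝ E + t • D x).det := by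
      intro x _
      rw [smul_eq_mul, mul_one, abs_of_pos]
      apply hdet
      rw [norm_smul, Real.norm_of_nonneg ht0.le]
      calc t * ‖D x‖ ≤ t * (L + 1) := by gcongr; exact hDn x
        _ < δ := lt_of_lt_of_le ht2 (min_le_left _ _)
    have hfin : μ U ≠ ⊤ := measure_ball_lt_top.ne
    have hI := (integrableOn_image_iff_integrableOn_abs_det_fderiv_smul μ hUm hf' hinj (fun _ => (1:ℝ))).1
      (by rw [himg]; exact integrableOn_const hfin)
    have hE := integral_image_eq_integral_abs_det_fderiv_smul μ hUm hf' hinj (fun _ => (1:ℝ))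
    refine ⟨hI.congr_fun hpos hUm, ?_⟩
    rw [← setIntegral_congr_fun hUm hpos, ← hE, himg]
    simp [Measure.real]
  have hsum : ∫ x in U, (ContinuousLinearMap.id ℝ E + D x).det ∂μ = (μ U).toReal := by
    have h1 : ∀ x, (ContinuousLinearMap.id ℝ E + D x).det =
      ∑ t ∈ s, (Lagrange.basis s id t).eval 1 * (ContinuousLinearMap.id ℝ E + t • D x).det := fun x =>
      det_interp (D x) s (by omega)
    simp_rw [h1]
    rw [integral_finsetSum]
    · simp_rw [integral_const_mul]
      rw [Finset.sum_congr rfl (fun t ht => by rw [(key t ht).2])]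
      have hb : ∑ j ∈ s, Lagrange.basis s id j = 1 :=
        Lagrange.sum_basis (fun a _ b _ h => h) (Finset.card_pos.1 (by omega))
      rw [← Finset.sum_mul, ← eval_finsetSum, hb, eval_one, one_mul]
    · intro t ht
      exact (key t ht).1.const_mul _
  have hzero : ∀ x ∈ U, (ContinuousLinearMap.id ℝ E + D x).det = 0 := by
    intro x hx
    have hx' : ‖x‖ < R := by simpa [hU] using hx
    have h1 : ContinuousLinearMap.id ℝ E + D x = fderiv ℝ r x := by rw [hD]; simp
    rw [h1]
    by_contra hne
    have hsurj : Function.Surjective (fderiv ℝ r x) := by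
      have hu : IsUnit (LinearMap.det (fderiv ℝ r x : E →ₗ[ℝ] E)) := isUnit_iff_ne_zero.2 hne
      have := (LinearMap.isUnit_iff_isUnit_det _).2 hu
      exact ((Module.End.isUnit_iff _).1 this).2
    obtain ⟨v, hv⟩ := hsurj (r x)
    have hconst : (fun y => inner ℝ (r y) (r y)) =ᶠ[nhds x] fun _ => R ^ 2 := by
      filter_upwards [Metric.isOpen_ball.mem_nhds hx] with y hy
      have hy' : ‖y‖ < R := by simpa using hy
      rw [real_inner_self_eq_norm_sq, hn y hy']
    have h2 := ((hd x hx').hasFDerivAt.inner ℝ (hd x hx').hasFDerivAt)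
    have h3 : HasFDerivAt (fun y => inner ℝ (r y) (r y)) (0 : E →L[ℝ] ℝ) x :=
      (hasFDerivAt_const (R ^ 2) x).congr_of_eventuallyEq hconst
    have h4 := h2.unique h3
    have h5 := congrArg (fun f : E →L[ℝ] ℝ => f v) h4
    simp only [ContinuousLinearMap.comp_apply, ContinuousLinearMap.prod_apply, fderivInnerCLM_apply,
      zero_apply, hv] at h5
    rw [real_inner_self_eq_norm_sq, hn x hx'] at h5
    nlinarith
  rw [setIntegral_congr_fun hUm hzero] at hsum
  simp only [integral_zero] at hsum
  have hpos : 0 < μ U := Metric.measure_ball_pos μ 0 hR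
  have := ENNReal.toReal_pos hpos.ne' measure_ball_lt_top.ne
  linarith

/-- gluing a map which is Lipschitz on the closed ball with the identity outside -/
theorem glue {R : ℝ} (q : E → E) {L : NNReal} (hq : LipschitzOnWith L q (Metric.closedBall 0 R))
    (hid : ∀ x, ‖x‖ = R → q x = x) :
    LipschitzWith (max L 1) (fun x => if ‖x‖ ≤ R then q x else x) := by
  classical
  have hmix : ∀ x y : E, ‖x‖ ≤ R → R < ‖y‖ → dist (q x) y ≤ max L 1 * dist x y := by
    intro x y hx hy
    -- a point of the segment on the sphere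
    have hcont : Continuous fun s : ℝ => ‖x + s • (y - x)‖ := by fun_prop
    have hiv : R ∈ (fun s : ℝ => ‖x + s • (y - x)‖) '' Icc 0 1 := by
      apply intermediate_value_Icc zero_le_one hcont.continuousOn
      constructor
      · simpa using hx
      · simpa using hy.le
    obtain ⟨s, ⟨hs0, hs1⟩, hs⟩ := hiv
    set w := x + s • (y - x) with hw
    have hwR : ‖w‖ = R := hs
    have h1 : dist (q x) w ≤ L * dist x w := by
      have := hq.dist_le_mul x (by simpa using hx) w (by simp [hwR])
      rwa [hid w hwR] at this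
    have h2 : dist x w = s * dist x y := by
      rw [dist_eq_norm, dist_eq_norm, hw]
      have : x - (x + s • (y - x)) = s • (x - y) := by simp only [smul_sub]; abel
      rw [this, norm_smul, Real.norm_of_nonneg hs0]
    have h3 : dist w y = (1 - s) * dist x y := by
      rw [dist_eq_norm, dist_eq_norm, hw]
      have : x + s • (y - x) - y = (1 - s) • (x - y) := by
        simp only [smul_sub, sub_smul, one_smul]; abel
      rw [this, norm_smul, Real.norm_of_nonneg (by linarith)]
    have h4 : dist (q x) y ≤ L * (s * dist x y) + (1 - s) * dist x y :=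
      calc dist (q x) y ≤ dist (q x) w + dist w y := dist_triangle _ _ _
        _ ≤ L * (s * dist x y) + (1 - s) * dist x y := by rw [← h2, h3]; gcongr
    have hL : (L:ℝ) ≤ (max L 1 : NNReal) := by exact_mod_cast le_max_left L 1
    have h1' : (1:ℝ) ≤ (max L 1 : NNReal) := by exact_mod_cast le_max_right L 1
    have hd : 0 ≤ dist x y := dist_nonneg
    calc dist (q x) y ≤ L * (s * dist x y) + (1 - s) * dist x y := h4
      _ ≤ (max L 1 : NNReal) * (s * dist x y) + (max L 1 : NNReal) * ((1 - s) * dist x y) := by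
        have a1 : 0 ≤ s * dist x y := mul_nonneg hs0 hd
        have a2 : 0 ≤ (1 - s) * dist x y := mul_nonneg (by linarith) hd
        nlinarith
      _ = (max L 1 : NNReal) * dist x y := by ring
  have hL : (L:ℝ) ≤ (max L 1 : NNReal) := by exact_mod_cast le_max_left L 1
  have h1' : (1:ℝ) ≤ (max L 1 : NNReal) := by exact_mod_cast le_max_right L 1
  refine LipschitzWith.of_dist_le_mul fun x y => ?_
  have hd : 0 ≤ dist x y := dist_nonneg
  by_cases hx : ‖x‖ ≤ R <;> by_cases hy : ‖y‖ ≤ R
  · simp only [hx, hy, if_true]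
    calc dist (q x) (q y) ≤ L * dist x y := hq.dist_le_mul x (by simpa using hx) y (by simpa using hy)
      _ ≤ _ := by gcongr
  · simp only [hx, hy, if_true, if_false]
    exact hmix x y hx (not_le.1 hy)
  · simp only [hx, hy, if_true, if_false]
    rw [dist_comm, dist_comm x y]
    exact hmix y x hy (not_le.1 hx)
  · simp only [hx, hy, if_false]
    nlinarith

/-- **Brouwer's fixed point theorem** for bounded `C¹` maps of the whole space. -/
theorem brouwer (F : E → E) (hF : ContDiff ℝ 1 F) {M : ℝ} (hM : ∀ x, ‖F x‖ ≤ M) : ∃ x, F x = x := by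
  classical
  by_contra hno
  push Not at hno
  letI : MeasurableSpace E := borel E
  haveI : BorelSpace E := ⟨rfl⟩
  have hM0 : 0 ≤ M := (norm_nonneg _).trans (hM 0)
  let χ : ContDiffBump (0 : E) := ⟨M + 1, M + 2, by linarith, by linarith⟩
  set R : ℝ := M + 2 with hR
  have hχ1 : ∀ x, ‖x‖ ≤ M + 1 → χ x = 1 := fun x hx =>
    χ.one_of_mem_closedBall (by simpa using hx)
  have hχ0 : ∀ x, R ≤ ‖x‖ → χ x = 0 := fun x hx =>
    χ.zero_of_le_dist (by simpa using hx)
  have hχn : ∀ x, 0 ≤ χ x := fun x => χ.nonneg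
  have hχl : ∀ x, χ x ≤ 1 := fun x => χ.le_one
  have hχc : ContDiff ℝ 1 (fun x => χ x) := χ.contDiff
  set g : E → E := fun x => x - χ x • F x with hg
  have hgc : ContDiff ℝ 1 g := contDiff_id.sub (hχc.smul hF)
  have hg0 : ∀ x, g x ≠ 0 := by
    intro x hx
    rcases le_or_gt ‖x‖ (M + 1) with h | h
    · have : x = F x := by
        have := sub_eq_zero.1 hx
        rwa [hχ1 x h, one_smul] at this
      exact hno x this.symm
    · have h1 : x = χ x • F x := sub_eq_zero.1 hx
      have h2 : ‖x‖ ≤ M := by
        calc ‖x‖ = ‖χ x • F x‖ := by rw [← h1]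
          _ = χ x * ‖F x‖ := by rw [norm_smul, Real.norm_of_nonneg (hχn x)]
          _ ≤ 1 * M := mul_le_mul (hχl x) (hM x) (norm_nonneg _) zero_le_one
          _ = M := one_mul _
      linarith
  have hgid : ∀ x, R ≤ ‖x‖ → g x = x := by
    intro x hx
    rw [hg]; simp only; rw [hχ0 x hx, zero_smul, sub_zero]
  set q : E → E := fun x => (R * ‖g x‖⁻¹) • g x with hq
  have hRpos : 0 < R := by rw [hR]; linarith
  have hqc : ContDiff ℝ 1 q := by
    have h1 : ContDiff ℝ 1 fun x => ‖g x‖ := hgc.norm ℝ hg0
    have h2 : ContDiff ℝ 1 fun x => ‖g x‖⁻¹ := h1.inv (fun x => (norm_pos_iff.2 (hg0 x)).ne')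
    exact (contDiff_const.mul h2).smul hgc
  have hqn : ∀ x, ‖q x‖ = R := by
    intro x
    have hp := norm_pos_iff.2 (hg0 x)
    rw [hq]; simp only
    rw [norm_smul, norm_mul, norm_inv, norm_norm, Real.norm_of_nonneg hRpos.le, mul_assoc,
      inv_mul_cancel₀ hp.ne', mul_one]
  have hqid : ∀ x, ‖x‖ = R → q x = x := by
    intro x hx
    rw [hq]; simp only
    rw [hgid x hx.ge, hx, mul_inv_cancel₀ hRpos.ne', one_smul]
  obtain ⟨L, hL⟩ : ∃ L : NNReal, LipschitzOnWith L q (Metric.closedBall 0 R) := by
    let χ2 : ContDiffBump (0 : E) := ⟨R, R + 1, hRpos, by linarith⟩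
    have hc : ContDiff ℝ 1 (fun x => χ2 x • q x) := by
      have : ContDiff ℝ 1 (fun x => χ2 x) := χ2.contDiff
      exact this.smul hqc
    have hs : HasCompactSupport (fun x => χ2 x • q x) := by
      have : HasCompactSupport (fun x => χ2 x) := χ2.hasCompactSupport
      exact this.smul_right
    obtain ⟨L, hL⟩ := ContDiff.lipschitzWith_of_hasCompactSupport hs hc (by simp)
    refine ⟨L, ?_⟩
    intro x hx y hy
    have h1 : χ2 x = 1 := χ2.one_of_mem_closedBall hx
    have h2 : χ2 y = 1 := χ2.one_of_mem_closedBall hy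
    have := hL x y
    simpa only [h1, h2, one_smul] using this
  have hLip := glue q hL hqid
  refine no_retract hRpos _ hLip ?_ ?_ ?_
  · intro x hx
    rcases eq_or_lt_of_le hx with h | h
    · simp only [h.symm.le, if_true]; exact hqid x h.symm
    · simp only [not_le.2 h, if_false]
  · intro x hx
    simp only [hx.le, if_true]; exact hqn x
  · intro x hx
    have h1 : (fun x => if ‖x‖ ≤ R then q x else x) =ᶠ[nhds x] q := by
      have : Metric.ball (0:E) R ∈ nhds x := Metric.isOpen_ball.mem_nhds (by simpa using hx)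
      filter_upwards [this] with y hy
      have hy' : ‖y‖ < R := by simpa using hy
      simp only [hy'.le, if_true]
    exact (hqc.differentiable (by simp) x).congr_of_eventuallyEq h1

end Pool.Agent.URP
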