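import Pool.Agent.URP.Nash

/-!
# URP / Comb: unconditional finite sets

`comb`: in a good unconditional finite set of `ℝ^m` whose members have at most `k` non-zero
coordinates, `m ≤ k ^ 2 - k + 1`.  `flips`: a member with `k` non-zero coordinates gives `2 ^ k` members.
-/

namespace Pool.Agent.URP

open Finset

/-- flip the signs of the coordinates in `S` -/
def flip {m : ℕ} (S : Finset (Fin m)) (v : Fin m → ℝ) : Fin m → ℝ := fun i => if i ∈ S then -v i else v i

theorem flip_mem {m : ℕ} {V : Finset (Fin m → ℝ)}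
    (hs : ∀ v ∈ V, ∀ i, Function.update v i (-v i) ∈ V) (S : Finset (Fin m)) :
    ∀ v ∈ V, flip S v ∈ V := by
  classical
  induction S using Finset.induction_on with
  | empty =>
    intro v hv
    have : flip ∅ v = v := by ext i; simp [flip]
    rwa [this]
  | insert a S ha ih =>
    intro v hv
    have h1 := hs _ (ih v hv) a
    have h2 : Function.update (flip S v) a (-(flip S v) a) = flip (insert a S) v := by
      ext i
      by_cases hi : i = a
      · subst hi; simp [flip, ha]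
      · simp [flip, hi]
    rwa [h2] at h1

theorem flips {m : ℕ} (V : Finset (Fin m → ℝ)) (hs : ∀ v ∈ V, ∀ i, Function.update v i (-v i) ∈ V)
    {v : Fin m → ℝ} (hv : v ∈ V) : 2 ^ (univ.filter (fun i => v i ≠ 0)).card ≤ V.card := by
  classical
  rw [← Finset.card_powerset]
  refine Finset.card_le_card_of_injOn (fun S => flip S v) (fun S _ => flip_mem hs S v hv) ?_
  intro S hS T hT hST
  rw [Finset.mem_coe, Finset.mem_powerset] at hS hT
  have key : ∀ i, v i ≠ 0 → (i ∈ S ↔ i ∈ T) := by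
    intro i hi
    have := congrFun hST i
    simp only [flip] at this
    by_cases h1 : i ∈ S <;> by_cases h2 : i ∈ T <;> simp only [h1, h2, if_true, if_false] at this ⊢
    · exact absurd (by linarith : v i = 0) hi
    · exact absurd (by linarith : v i = 0) hi
  ext i
  constructor
  · intro h
    exact (key i (Finset.mem_filter.1 (hS h)).2).1 h
  · intro h
    exact (key i (Finset.mem_filter.1 (hT h)).2).2 h

theorem comb {m k : ℕ} (V : Finset (Fin m → ℝ)) (hs : ∀ v ∈ V, ∀ i, Function.update v i (-v i) ∈ V)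
    (hne : ∀ i, ∃ v ∈ V, v i ≠ 0) (hk : ∀ v ∈ V, (univ.filter (fun i => v i ≠ 0)).card ≤ k)
    (hgood : ∀ u ∈ V, ∀ v ∈ V, ∀ z z' : Fin m → ℝ, 0 < ∑ i, z i * u i →
      (∀ w ∈ V, ∑ i, z i * w i ≤ ∑ i, z i * u i) → (∀ w ∈ V, ∑ i, z i * w i ≤ ∑ i, z i * v i) →
      (∀ w ∈ V, ∑ i, z' i * w i ≤ ∑ i, z' i * u i) →
      (∀ w ∈ V, ∑ i, z' i * w i ≤ ∑ i, z' i * (-v i)) → 0 < ∑ i, z' i * u i → False) :
    m + k ≤ k ^ 2 + 1 := by
  classical
  rcases Nat.eq_zero_or_pos m with hm | hm
  · subst hm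
    have : k ≤ k ^ 2 := Nat.le_self_pow (by norm_num) k
    omega
  have : Nonempty (Fin m) := ⟨⟨0, hm⟩⟩
  -- absolute values
  have habs : ∀ v ∈ V, (fun i => |v i|) ∈ V := by
    intro v hv
    have := flip_mem hs (univ.filter fun i => v i < 0) v hv
    have h2 : flip (univ.filter fun i => v i < 0) v = fun i => |v i| := by
      ext i
      simp only [flip, Finset.mem_filter, Finset.mem_univ, true_and]
      split_ifs with h
      · rw [abs_of_neg h]
      · rw [abs_of_nonneg (not_lt.1 h)]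
    rwa [h2] at this
  let W := V.filter fun v => ∀ i, 0 ≤ v i
  have hWV : ∀ v ∈ W, v ∈ V := fun v hv => (Finset.mem_filter.1 hv).1
  have hW0 : ∀ v ∈ W, ∀ i, 0 ≤ v i := fun v hv => (Finset.mem_filter.1 hv).2
  have habsW : ∀ v ∈ V, (fun i => |v i|) ∈ W := fun v hv =>
    Finset.mem_filter.2 ⟨habs v hv, fun i => abs_nonneg _⟩
  have : Nonempty {v // v ∈ W} := by
    obtain ⟨v, hv, _⟩ := hne ⟨0, hm⟩
    exact ⟨⟨_, habsW v hv⟩⟩
  obtain ⟨z, l, hz0, hz1, hl0, hl1, hl, hz⟩ := nash (I := Fin m) (J := {v // v ∈ W})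
    (fun i v => if v.1 i ≠ 0 then 1 else 0) (fun i v => v.1 i)
  -- `M i`: the mass of the supports containing `i`
  let M : Fin m → ℝ := fun i => ∑ v : {v // v ∈ W}, l v * (if v.1 i ≠ 0 then 1 else 0)
  have hM : ∀ i, 0 < z i → ∀ i', M i ≤ M i' := hz
  obtain ⟨i0, hi0⟩ : ∃ i, 0 < z i := by
    by_contra hc
    push Not at hc
    have : ∑ i, z i ≤ 0 := Finset.sum_nonpos fun i _ => hc i
    linarith
  obtain ⟨v0, hv0⟩ : ∃ v, 0 < l v := by
    by_contra hc
    push Not at hc
    have : ∑ v, l v ≤ 0 := Finset.sum_nonpos fun i _ => hc i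
    linarith
  set c := M i0 with hc
  have hcM : ∀ i, c ≤ M i := hM i0 hi0
  have hMc : ∀ i, 0 < z i → M i = c := fun i hi => le_antisymm (hM i hi i0) (hcM i)
  -- tight vectors maximise over all of `V`
  have htop : ∀ v : {v // v ∈ W}, 0 < l v → ∀ w ∈ V, ∑ i, z i * w i ≤ ∑ i, z i * v.1 i := by
    intro v hv w hw
    refine le_trans (Finset.sum_le_sum fun i _ => ?_) (hl v hv ⟨_, habsW w hw⟩)
    exact mul_le_mul_of_nonneg_left (le_abs_self _) (hz0 i)
  have hpos : ∀ v : {v // v ∈ W}, 0 < l v → 0 < ∑ i, z i * v.1 i := by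
    intro v hv
    obtain ⟨w, hw, hwi⟩ := hne i0
    refine lt_of_lt_of_le ?_ (hl v hv ⟨_, habsW w hw⟩)
    refine Finset.sum_pos' (fun i _ => mul_nonneg (hz0 i) (abs_nonneg _)) ⟨i0, Finset.mem_univ _, ?_⟩
    exact mul_pos hi0 (abs_pos.2 hwi)
  -- intersecting supports
  have hint : ∀ u v : {v // v ∈ W}, 0 < l u → 0 < l v → ∃ i, u.1 i ≠ 0 ∧ v.1 i ≠ 0 ∧ 0 < z i := by
    intro u v hu hv
    by_contra hcon
    push Not at hcon
    let T : Finset (Fin m) := univ.filter fun i => v.1 i ≠ 0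
    let z' : Fin m → ℝ := flip T z
    have hflip : ∀ w : Fin m → ℝ, ∑ i, z' i * w i = ∑ i, z i * flip T w i := by
      intro w
      refine Finset.sum_congr rfl fun i _ => ?_
      simp only [z', flip]
      split_ifs <;> ring
    have e1 : ∑ i, z' i * u.1 i = ∑ i, z i * u.1 i := by
      refine Finset.sum_congr rfl fun i _ => ?_
      simp only [z', flip, T, Finset.mem_filter, Finset.mem_univ, true_and]
      split_ifs with h
      · by_cases hui : u.1 i = 0
        · rw [hui]; ring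
        · have := hcon i hui h
          have hzi : z i = 0 := le_antisymm this (hz0 i)
          rw [hzi]; ring
      · rfl
    have e2 : ∑ i, z' i * (-v.1 i) = ∑ i, z i * v.1 i := by
      refine Finset.sum_congr rfl fun i _ => ?_
      simp only [z', flip, T, Finset.mem_filter, Finset.mem_univ, true_and]
      split_ifs with h
      · ring
      · rw [not_not] at h
        rw [h]; ring
    refine hgood u.1 (hWV _ u.2) v.1 (hWV _ v.2) z z' (hpos u hu) (htop u hu) (htop v hv) ?_ ?_ ?_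
    · intro w hw
      rw [e1, hflip]
      exact htop u hu _ (flip_mem hs T w hw)
    · intro w hw
      rw [e2, hflip]
      exact htop v hv _ (flip_mem hs T w hw)
    · rw [e1]; exact hpos u hu
  -- Caratheodory
  let p : {v // v ∈ W} → (Fin m → ℝ) := fun v i => if v.1 i ≠ 0 then 1 else 0
  have hMp : M = ∑ v, l v • p v := by
    ext i
    simp [M, p]
  have hMin : M ∈ convexHull ℝ (p '' {v | 0 < l v}) := by
    have e : ∑ v, l v • p v = ∑ v ∈ univ.filter (fun v => 0 < l v), l v • p v := by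
      rw [Finset.sum_filter]
      refine Finset.sum_congr rfl fun v _ => ?_
      split_ifs with h
      · rfl
      · rw [le_antisymm (not_lt.1 h) (hl0 v), zero_smul]
    have e1 : ∑ v ∈ univ.filter (fun v => 0 < l v), l v = 1 := by
      rw [← hl1, Finset.sum_filter]
      refine Finset.sum_congr rfl fun v _ => ?_
      split_ifs with h
      · rfl
      · exact le_antisymm (hl0 v) (not_lt.1 h)
    rw [hMp, e]
    refine (convex_convexHull ℝ _).sum_mem (fun v _ => hl0 v) e1 (fun v hv => ?_)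
    exact subset_convexHull ℝ _ ⟨v, (Finset.mem_filter.1 hv).2, rfl⟩
  rw [convexHull_eq_union] at hMin
  simp only [Set.mem_iUnion] at hMin
  obtain ⟨t, ht, hai, hMt⟩ := hMin
  obtain ⟨w, hw0, hw1, hwM⟩ := Finset.mem_convexHull'.1 hMt
  have htc : t.card ≤ m + 1 := by
    have h1 := hai.card_le_finrank_succ
    have h2 := Submodule.finrank_le (vectorSpan ℝ (Set.range ((↑) : t → Fin m → ℝ)))
    rw [Fintype.card_coe] at h1
    have h3 : Module.finrank ℝ (Fin m → ℝ) = m := by simp
    omega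
  let Z := univ.filter fun i => 0 < z i
  have h01 : ∀ y ∈ t, ∀ i, y i = 0 ∨ y i = 1 := by
    intro y hy i
    obtain ⟨v, _, rfl⟩ := ht hy
    simp only [p]
    split_ifs
    · right; rfl
    · left; rfl
  have hyk : ∀ y ∈ t, ∑ i, y i ≤ k := by
    intro y hy
    obtain ⟨v, _, rfl⟩ := ht hy
    have : ∑ i, p v i = ((univ.filter fun i => v.1 i ≠ 0).card : ℝ) := by
      simp only [p]
      rw [Finset.sum_ite, Finset.sum_const_zero, add_zero, Finset.sum_const, nsmul_eq_mul, mul_one]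
    rw [this]
    exact_mod_cast hk _ (hWV _ v.2)
  have hypos : ∀ y ∈ t, ∀ i, 0 ≤ y i := fun y hy i => by
    rcases h01 y hy i with h | h <;> rw [h] <;> norm_num
  have hyy : ∀ y ∈ t, ∀ y' ∈ t, 1 ≤ ∑ i ∈ Z, y i * y' i := by
    intro y hy y' hy'
    obtain ⟨u, hu, rfl⟩ := ht hy
    obtain ⟨v, hv, rfl⟩ := ht hy'
    obtain ⟨i, h3, h4, h5⟩ := hint u v hu hv
    have e : (1:ℝ) = p u i * p v i := by simp [p, h3, h4]
    rw [e]
    exact Finset.single_le_sum (f := fun i => p u i * p v i)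
      (fun i _ => mul_nonneg (hypos _ hy i) (hypos _ hy' i)) (Finset.mem_filter.2 ⟨Finset.mem_univ i, h5⟩)
  have hMi : ∀ i, M i = ∑ y ∈ t, w y * y i := by
    intro i
    rw [← hwM]
    simp [Finset.sum_apply]
  have hc0 : 0 ≤ c := by
    rw [hc, hMi]
    exact Finset.sum_nonneg fun y hy => mul_nonneg (hw0 y hy) (hypos y hy i0)
  have hs1 : ∀ y ∈ t, 1 ≤ ∑ i ∈ Z, y i := by
    intro y hy
    refine (hyy y hy y hy).trans (Finset.sum_le_sum fun i _ => ?_)
    rcases h01 y hy i with h | h <;> rw [h] <;> norm_num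
  have hsk : ∀ y ∈ t, ∑ i ∈ Z, y i ≤ k := fun y hy =>
    (Finset.sum_le_sum_of_subset_of_nonneg (Finset.subset_univ _) fun i _ _ => hypos y hy i).trans (hyk y hy)
  have hwl : ∀ y ∈ t, w y ≤ 1 := fun y hy => by
    rw [← hw1]; exact Finset.single_le_sum (f := w) hw0 hy
  have hmain : ∀ y ∈ t, 1 - w y ≤ (c - w y) * k := by
    intro y hy
    have e1 : c * ∑ i ∈ Z, y i = ∑ y' ∈ t, w y' * ∑ i ∈ Z, y i * y' i := by
      have : ∀ i ∈ Z, c * y i = y i * ∑ y' ∈ t, w y' * y' i := by
        intro i hi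
        rw [← hMi, hMc i (Finset.mem_filter.1 hi).2]; ring
      rw [Finset.mul_sum, Finset.sum_congr rfl this]
      simp_rw [Finset.mul_sum]
      rw [Finset.sum_comm]
      refine Finset.sum_congr rfl fun y' _ => Finset.sum_congr rfl fun i _ => by ring
    have e2 : ∑ y' ∈ t, w y' * (if y' = y then ∑ i ∈ Z, y i else 1) ≤ c * ∑ i ∈ Z, y i := by
      rw [e1]
      refine Finset.sum_le_sum fun y' hy' => mul_le_mul_of_nonneg_left ?_ (hw0 y' hy')
      split_ifs with h
      · subst h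
        refine Finset.sum_le_sum fun i _ => ?_
        rcases h01 y' hy' i with h | h <;> rw [h] <;> norm_num
      · exact hyy y hy y' hy'
    have e3 : ∑ y' ∈ t, w y' * (if y' = y then ∑ i ∈ Z, y i else 1)
        = 1 - w y + w y * ∑ i ∈ Z, y i := by
      have : ∀ y' ∈ t, w y' * (if y' = y then ∑ i ∈ Z, y i else 1)
          = w y' + (if y' = y then w y' * (∑ i ∈ Z, y i - 1) else 0) := by
        intro y' _
        split_ifs <;> ring
      rw [Finset.sum_congr rfl this, Finset.sum_add_distrib, hw1, Finset.sum_ite_eq' t y, if_pos hy]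
      ring
    have h1 := hs1 y hy
    have h2 := hsk y hy
    have h3 := hwl y hy
    have h4 : 1 - w y ≤ (c - w y) * ∑ i ∈ Z, y i := by
      have := e3 ▸ e2
      linarith
    have h5 : 0 ≤ c - w y := by
      by_contra hneg
      push Not at hneg
      nlinarith
    calc 1 - w y ≤ (c - w y) * ∑ i ∈ Z, y i := h4
      _ ≤ (c - w y) * k := mul_le_mul_of_nonneg_left h2 h5
  have hsum := Finset.sum_le_sum hmain
  rw [Finset.sum_sub_distrib, Finset.sum_const, nsmul_eq_mul, mul_one, hw1, ← Finset.sum_mul,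
    Finset.sum_sub_distrib, Finset.sum_const, nsmul_eq_mul, hw1] at hsum
  have h2 : m * c ≤ k := by
    calc (m:ℝ) * c = ∑ i : Fin m, c := by simp
      _ ≤ ∑ i, M i := Finset.sum_le_sum fun i _ => hcM i
      _ = ∑ y ∈ t, w y * ∑ i, y i := by
        simp_rw [hMi]
        rw [Finset.sum_comm]
        exact Finset.sum_congr rfl fun y _ => by rw [Finset.mul_sum]
      _ ≤ ∑ y ∈ t, w y * k := Finset.sum_le_sum fun y hy =>
        mul_le_mul_of_nonneg_left (hyk y hy) (hw0 y hy)
      _ = k := by rw [← Finset.sum_mul, hw1, one_mul]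
  have htne : t.Nonempty := by
    rw [Finset.nonempty_iff_ne_empty]
    rintro rfl
    simp at hw1
  have hn1 : (1:ℝ) ≤ t.card := by exact_mod_cast Finset.card_pos.2 htne
  have hn2 : (t.card : ℝ) ≤ m + 1 := by exact_mod_cast htc
  have hk1 : (1:ℝ) ≤ k := by
    obtain ⟨y, hy⟩ := htne
    exact (hs1 y hy).trans (hsk y hy)
  have hm1 : (1:ℝ) ≤ m := by exact_mod_cast hm
  set n : ℝ := (t.card : ℝ) with hn
  have h6 : (k:ℝ) - 1 ≤ (c * k - 1) * n := by nlinarith
  have h7 : 0 ≤ c * k - 1 := by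
    by_contra hneg
    push Not at hneg
    nlinarith
  have h8 : (k:ℝ) - 1 ≤ (c * k - 1) * (m + 1) := by
    refine h6.trans (mul_le_mul_of_nonneg_left hn2 h7)
  have h9 : (m:ℝ) * (m + k) ≤ k ^ 2 * (m + 1) := by
    have a1 : (m:ℝ) * (k - 1) ≤ m * ((c * k - 1) * (m + 1)) := mul_le_mul_of_nonneg_left h8 (by linarith)
    have a2 : (m * c) * (k * (m + 1)) ≤ k * (k * (m + 1)) :=
      mul_le_mul_of_nonneg_right h2 (by positivity)
    nlinarith
  by_contra hcon
  push Not at hcon
  have hcon' : (k:ℝ) ^ 2 + 2 ≤ m + k := by exact_mod_cast (by omega : k ^ 2 + 2 ≤ m + k)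
  nlinarith [mul_le_mul_of_nonneg_left hcon' (by linarith : (0:ℝ) ≤ m), sq_nonneg ((k:ℝ) - 1)]

end Pool.Agent.URP
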