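import Mathlib

/-!
# URP / Defs: faces of a polytope given by its vertex set
-/

namespace Pool.Agent.URP

/-- `S` is the set of the members of `V` at which a linear functional takes a value `c > 0` which is
nowhere exceeded on `V`.  If `V` is the vertex set of a centrally symmetric `d`-polytope in `ℝ^d`, the
sets `S` are the vertex sets of its proper faces (and the empty set). -/
def FaceSet {d : ℕ} (V : Finset (Fin d → ℝ)) (S : Set (Fin d → ℝ)) : Prop :=
  ∃ (f : (Fin d → ℝ) →ₗ[ℝ] ℝ) (c : ℝ), 0 < c ∧ (∀ w ∈ V, f w ≤ c) ∧ S = {w | w ∈ V ∧ f w = c}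

/-- `u` and `v` lie in a common proper face -/
def InFace {d : ℕ} (V : Finset (Fin d → ℝ)) (u v : Fin d → ℝ) : Prop :=
  ∃ S, FaceSet V S ∧ u ∈ S ∧ v ∈ S

/-- `u` and `v` are joined by an edge -/
def Edge {d : ℕ} (V : Finset (Fin d → ℝ)) (u v : Fin d → ℝ) : Prop := u ≠ v ∧ FaceSet V {u, v}

/-- every proper face is a simplex -/
def Simplicial {d : ℕ} (V : Finset (Fin d → ℝ)) : Prop :=
  ∀ S, FaceSet V S → AffineIndependent ℝ ((↑) : S → (Fin d → ℝ))

end Pool.Agent.URP
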