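import Pool.Agent.URP.Defs

/-!
# URP / Face: two vertices in a common proper face of a simplicial polytope are joined by an edge
-/

namespace Pool.Agent.URP

open Finset

/-- two vertices in a common proper face of a simplicial polytope form a face -/
theorem faceSet_pair {d : ℕ} {V : Finset (Fin d → ℝ)} (hs : Simplicial V) {u v : Fin d → ℝ}
    (h : InFace V u v) : FaceSet V {u, v} := by
  classical
  obtain ⟨S, hS, hu, hv⟩ := h
  have hai := hs S hS
  obtain ⟨f, c, hc, hle, rfl⟩ := hS
  set S : Set (Fin d → ℝ) := {w | w ∈ V ∧ f w = c} with hSdef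
  -- linear independence
  have hli : LinearIndependent ℝ ((↑) : S → (Fin d → ℝ)) := by
    rw [linearIndependent_iff']
    intro s a ha i hi
    have h1 := congrArg f ha
    rw [map_sum, map_zero] at h1
    have h2 : ∑ i ∈ s, f (a i • (i : Fin d → ℝ)) = c * ∑ i ∈ s, a i := by
      rw [Finset.mul_sum]
      refine Finset.sum_congr rfl fun i _ => ?_
      rw [map_smul, i.2.2, smul_eq_mul, mul_comm]
    rw [h2] at h1
    have h3 : ∑ i ∈ s, a i = 0 := by
      rcases mul_eq_zero.1 h1 with h | h
      · exact absurd h hc.ne'
      · exact h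
    exact (affineIndependent_iff.1 hai) s a h3 ha i hi
  -- a functional which is `0` at `u, v` and `-1` at the other vertices of the face
  obtain ⟨g, hg⟩ : ∃ g : (Fin d → ℝ) →ₗ[ℝ] ℝ, ∀ w : S, g w = if (w : Fin d → ℝ) = u ∨ (w : Fin d → ℝ) = v then 0 else -1 := by
    obtain ⟨g, hg⟩ := LinearMap.exists_extend ((Module.Basis.span hli).constr ℝ fun w : S =>
      (if (w : Fin d → ℝ) = u ∨ (w : Fin d → ℝ) = v then (0:ℝ) else -1))
    refine ⟨g, fun w => ?_⟩
    have h1 := congrArg (fun y => y (Module.Basis.span hli w)) hg
    simp only [LinearMap.comp_apply, Submodule.subtype_apply, Module.Basis.constr_basis] at h1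
    rw [← h1]
    congr 1
    rw [Module.Basis.span_apply]
  -- small perturbation
  have hev : ∀ w ∈ V, w ≠ u → w ≠ v → ∀ᶠ ε : ℝ in nhdsWithin 0 (Set.Ioi 0), f w + ε * g w < c := by
    intro w hw hwu hwv
    rcases (hle w hw).eq_or_lt with h | h
    · have h1 : g w = -1 := by
        have := hg ⟨w, hw, h⟩
        simpa [hwu, hwv] using this
      filter_upwards [self_mem_nhdsWithin] with ε hε
      rw [h, h1]
      have : 0 < ε := hε
      linarith
    · have hcont : Filter.Tendsto (fun ε : ℝ => f w + ε * g w) (nhdsWithin 0 (Set.Ioi 0)) (nhds (f w)) := by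
        have : Filter.Tendsto (fun ε : ℝ => f w + ε * g w) (nhds 0) (nhds (f w + 0 * g w)) :=
          (continuous_const.add (continuous_id.mul continuous_const)).tendsto 0
        rw [zero_mul, add_zero] at this
        exact this.mono_left nhdsWithin_le_nhds
      exact hcont.eventually (gt_mem_nhds h)
  have hall : ∀ᶠ ε : ℝ in nhdsWithin 0 (Set.Ioi 0), ∀ w ∈ V, w ≠ u → w ≠ v → f w + ε * g w < c := by
    rw [Filter.eventually_all_finset]
    intro w hw
    by_cases h1 : w = u
    · exact Filter.Eventually.of_forall fun _ h => absurd h1 h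
    by_cases h2 : w = v
    · exact Filter.Eventually.of_forall fun _ _ h => absurd h2 h
    exact (hev w hw h1 h2).mono fun _ h _ _ => h
  obtain ⟨ε, hε⟩ := hall.exists
  refine ⟨f + ε • g, c, hc, ?_, ?_⟩
  · intro w hw
    by_cases h1 : w = u
    · subst h1
      have : g w = 0 := by simpa using hg ⟨w, hu⟩
      simp [this, hu.2]
    by_cases h2 : w = v
    · subst h2
      have : g w = 0 := by simpa using hg ⟨w, hv⟩
      simp [this, hv.2]
    have := hε w hw h1 h2
    simpa using this.le
  · ext w
    simp only [Set.mem_insert_iff, Set.mem_singleton_iff, Set.mem_ofPred_eq]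
    constructor
    · rintro (rfl | rfl)
      · have : g w = 0 := by simpa using hg ⟨w, hu⟩
        exact ⟨hu.1, by simp [this, hu.2]⟩
      · have : g w = 0 := by simpa using hg ⟨w, hv⟩
        exact ⟨hv.1, by simp [this, hv.2]⟩
    · rintro ⟨hw, he⟩
      by_contra hcon
      push Not at hcon
      have := hε w hw hcon.1 hcon.2
      have he' : f w + ε * g w = c := by simpa using he
      linarith

/-- two vertices in a common proper face of a simplicial polytope are joined by an edge -/
theorem edge_of_inFace {d : ℕ} {V : Finset (Fin d → ℝ)} (hs : Simplicial V) {u v : Fin d → ℝ}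
    (huv : u ≠ v) (h : InFace V u v) : Edge V u v :=
  ⟨huv, faceSet_pair hs h⟩

/-- a member of a proper face of a simplicial polytope is a vertex -/
theorem faceSet_single {d : ℕ} {V : Finset (Fin d → ℝ)} (hs : Simplicial V) {u : Fin d → ℝ}
    (h : InFace V u u) : FaceSet V {u} := by
  have := faceSet_pair hs h
  rwa [Set.pair_eq_singleton] at this

end Pool.Agent.URP
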