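import Pool.Agent.URP.Comb

/-!
# URP / Grp: joint eigenfunctionals of an elementary abelian 2-group of linear maps

`main_card`: a good centrally symmetric finite set whose linear symmetries contain an elementary
abelian group of order `2 ^ m` has at least `2 ^ ((1 + √(4 m - 3)) / 2)` members.
-/

namespace Pool.Agent.URP

open Finset

variable {E : Type} [AddCommGroup E] [Module ℝ E]

/-- a joint eigenfunctional with prescribed sign `-1` at one element -/
theorem joint (G : Finset (E ≃ₗ[ℝ] E)) (hsq : ∀ g ∈ G, g * g = 1) (hcomm : ∀ g ∈ G, ∀ h ∈ G, g * h = h * g)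
    {g : E ≃ₗ[ℝ] E} (hg : g ∈ G) (hg1 : g ≠ 1) :
    ∃ x : E →ₗ[ℝ] ℝ, x ≠ 0 ∧ (∀ v, x (g v) = -x v) ∧
      ∀ h ∈ G, (∀ v, x (h v) = x v) ∨ (∀ v, x (h v) = -x v) := by
  classical
  have hgg : ∀ h ∈ G, ∀ v, h (h v) = v := fun h hh v => by
    have := hsq h hh
    exact congrArg (fun f : E ≃ₗ[ℝ] E => f v) this
  have hco : ∀ h ∈ G, ∀ h' ∈ G, ∀ v, h (h' v) = h' (h v) := fun h hh h' hh' v => by
    have := hcomm h hh h' hh'
    exact congrArg (fun f : E ≃ₗ[ℝ] E => f v) this
  obtain ⟨v, hv⟩ : ∃ v, g v ≠ v := by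
    by_contra hc
    push Not at hc
    exact hg1 (LinearEquiv.ext hc)
  have hw : v - g v ≠ 0 := fun h => hv (sub_eq_zero.1 h).symm
  obtain ⟨f, hf⟩ : ∃ f : Module.Dual ℝ E, f (v - g v) ≠ 0 := by
    by_contra hc
    push Not at hc
    exact hw ((Module.forall_dual_apply_eq_zero_iff ℝ _).1 hc)
  have key : ∀ T : Finset (E ≃ₗ[ℝ] E), T ⊆ G → ∃ x : E →ₗ[ℝ] ℝ, x ≠ 0 ∧ (∀ v, x (g v) = -x v) ∧
      ∀ h ∈ T, (∀ v, x (h v) = x v) ∨ (∀ v, x (h v) = -x v) := by
    intro T
    induction T using Finset.induction_on with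
    | empty =>
      intro _
      refine ⟨f - f ∘ₗ (g : E →ₗ[ℝ] E), ?_, ?_, by simp⟩
      · intro h0
        apply hf
        have := congrArg (fun y : E →ₗ[ℝ] ℝ => y v) h0
        simpa [map_sub] using this
      · intro u
        simp [hgg g hg u]
    | insert a T ha ih =>
      intro hT
      have haG : a ∈ G := hT (Finset.mem_insert_self a T)
      obtain ⟨x, hx0, hxg, hxT⟩ := ih (fun h hh => hT (Finset.mem_insert_of_mem hh))
      by_cases hy : x + x ∘ₗ (a : E →ₗ[ℝ] E) = 0
      · refine ⟨x, hx0, hxg, fun h hh => ?_⟩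
        rcases Finset.mem_insert.1 hh with rfl | hh
        · right
          intro u
          have := congrArg (fun y : E →ₗ[ℝ] ℝ => y u) hy
          simp only [LinearMap.add_apply, LinearMap.comp_apply, LinearEquiv.coe_coe,
            LinearMap.zero_apply] at this
          linarith
        · exact hxT h hh
      · refine ⟨x + x ∘ₗ (a : E →ₗ[ℝ] E), hy, ?_, fun h hh => ?_⟩
        · intro u
          simp only [LinearMap.add_apply, LinearMap.comp_apply, LinearEquiv.coe_coe]
          rw [hco a haG g hg, hxg, hxg]; ring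
        · rcases Finset.mem_insert.1 hh with rfl | hh
          · left
            intro u
            simp only [LinearMap.add_apply, LinearMap.comp_apply, LinearEquiv.coe_coe]
            rw [hgg h haG]; ring
          · have hhG : h ∈ G := hT (Finset.mem_insert_of_mem hh)
            rcases hxT h hh with h1 | h1
            · left
              intro u
              simp only [LinearMap.add_apply, LinearMap.comp_apply, LinearEquiv.coe_coe]
              rw [hco a haG h hhG, h1, h1]
            · right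
              intro u
              simp only [LinearMap.add_apply, LinearMap.comp_apply, LinearEquiv.coe_coe]
              rw [hco a haG h hhG, h1, h1]; ring
  exact key G (Finset.Subset.refl G)

theorem sys (G : Finset (E ≃ₗ[ℝ] E)) (hsq : ∀ g ∈ G, g * g = 1) (hcomm : ∀ g ∈ G, ∀ h ∈ G, g * h = h * g) :
    ∀ (m : ℕ) (H : Finset (E ≃ₗ[ℝ] E)), H ⊆ G → (∀ g ∈ H, ∀ h ∈ H, g * h ∈ H) → H.card = 2 ^ m →
      ∃ (x : Fin m → (E →ₗ[ℝ] ℝ)) (h : Fin m → (E ≃ₗ[ℝ] E)), (∀ j, x j ≠ 0) ∧ (∀ i, h i ∈ H) ∧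
        (∀ i j v, x j (h i v) = if i = j then -x j v else x j v) ∧
        (∀ j, ∀ g ∈ G, (∀ v, x j (g v) = x j v) ∨ (∀ v, x j (g v) = -x j v)) := by
  classical
  intro m
  induction m with
  | zero =>
    intro H _ _ _
    exact ⟨fun i => i.elim0, fun i => i.elim0, fun i => i.elim0, fun i => i.elim0, fun i => i.elim0,
      fun i => i.elim0⟩
  | succ m ih =>
    intro H hHG hmul hcard
    obtain ⟨g, hgH, hg1⟩ : ∃ g ∈ H, g ≠ 1 := by
      have : 1 < H.card := by rw [hcard]; exact Nat.one_lt_two_pow (by omega)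
      exact Finset.exists_mem_ne this 1
    obtain ⟨x, hx0, hxg, hxG⟩ := joint G hsq hcomm (hHG hgH) hg1
    let H' := H.filter fun h => ∀ v, x (h v) = x v
    have hH'H : H' ⊆ H := Finset.filter_subset _ _
    have hne : ∃ v, x v ≠ 0 := by
      by_contra hc
      push Not at hc
      exact hx0 (LinearMap.ext hc)
    obtain ⟨v1, hv1⟩ := hne
    have hcard' : H'.card = 2 ^ m := by
      have hbij : H'.card = (H.filter fun h => ¬ ∀ v, x (h v) = x v).card := by
        refine Finset.card_bij (fun h _ => g * h) ?_ ?_ ?_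
        · intro h hh
          obtain ⟨h1, h2⟩ := Finset.mem_filter.1 hh
          refine Finset.mem_filter.2 ⟨hmul g hgH h h1, fun hc => ?_⟩
          have h3 := hc v1
          rw [LinearEquiv.mul_apply, hxg, h2] at h3
          exact hv1 (by linarith)
        · intro h _ h' _ he
          exact mul_left_cancel he
        · intro h hh
          obtain ⟨h1, h2⟩ := Finset.mem_filter.1 hh
          have h3 : ∀ v, x (h v) = -x v := (hxG h (hHG h1)).resolve_left h2
          refine ⟨g * h, Finset.mem_filter.2 ⟨hmul g hgH h h1, fun v => ?_⟩, ?_⟩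
          · rw [LinearEquiv.mul_apply, hxg, h3, neg_neg]
          · rw [← mul_assoc, hsq g (hHG hgH), one_mul]
      have hsum := Finset.card_filter_add_card_filter_not (s := H) (fun h => ∀ v, x (h v) = x v)
      rw [pow_succ] at hcard
      have : H'.card + H'.card = 2 ^ m * 2 := by
        conv_lhs => rw [show H'.card + H'.card = H'.card + (H.filter fun h => ¬ ∀ v, x (h v) = x v).card by rw [← hbij]]
        rw [← hcard]; exact hsum
      omega
    obtain ⟨x', h', hx'0, hh'H, hrel, hG⟩ := ih H' (hH'H.trans hHG) (by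
      intro a ha b hb
      obtain ⟨a1, a2⟩ := Finset.mem_filter.1 ha
      obtain ⟨b1, b2⟩ := Finset.mem_filter.1 hb
      refine Finset.mem_filter.2 ⟨hmul a a1 b b1, fun v => ?_⟩
      rw [LinearEquiv.mul_apply, a2, b2]) hcard'
    -- the new group element
    have key : ∀ T : Finset (Fin m), ∃ h0 ∈ H, (∀ v, x (h0 v) = -x v) ∧ ∀ j ∈ T, ∀ v, x' j (h0 v) = x' j v := by
      intro T
      induction T using Finset.induction_on with
      | empty => exact ⟨g, hgH, hxg, by simp⟩
      | insert a T ha ihT =>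
        obtain ⟨h0, h0H, h0x, h0T⟩ := ihT
        rcases hG a h0 (hHG h0H) with h1 | h1
        · refine ⟨h0, h0H, h0x, fun j hj => ?_⟩
          rcases Finset.mem_insert.1 hj with rfl | hj
          · exact h1
          · exact h0T j hj
        · have hax : ∀ v, x (h' a v) = x v := (Finset.mem_filter.1 (hh'H a)).2
          refine ⟨h0 * h' a, hmul _ h0H _ (hH'H (hh'H a)), fun v => ?_, fun j hj v => ?_⟩
          · rw [LinearEquiv.mul_apply, h0x, hax]
          · rw [LinearEquiv.mul_apply]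
            rcases Finset.mem_insert.1 hj with rfl | hj
            · rw [h1, hrel, if_pos rfl, neg_neg]
            · rw [h0T j hj, hrel, if_neg]
              rintro rfl
              exact ha hj
    obtain ⟨h0, h0H, h0x, h0j⟩ := key univ
    refine ⟨Fin.cons x x', Fin.cons h0 h', ?_, ?_, ?_, ?_⟩
    · intro j
      refine Fin.cases ?_ (fun j => ?_) j
      · simpa using hx0
      · simpa using hx'0 j
    · intro j
      refine Fin.cases ?_ (fun j => ?_) j
      · simpa using h0H
      · simpa using hH'H (hh'H j)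
    · intro i j v
      refine Fin.cases ?_ (fun i => ?_) i <;> refine Fin.cases ?_ (fun j => ?_) j
      · simpa using h0x v
      · have : (0 : Fin (m + 1)) ≠ j.succ := (Fin.succ_ne_zero j).symm
        simpa [this] using h0j j (Finset.mem_univ j) v
      · have : i.succ ≠ (0 : Fin (m + 1)) := Fin.succ_ne_zero i
        simpa [this] using (Finset.mem_filter.1 (hh'H i)).2 v
      · simpa using hrel i j v
    · intro j
      refine Fin.cases ?_ (fun j => ?_) j
      · simpa using hxG
      · simpa using hG j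

theorem main_card {m : ℕ} (V : Finset E) (hV : V.Nonempty) (hspan : Submodule.span ℝ (V : Set E) = ⊤)
    (G : Finset (E ≃ₗ[ℝ] E)) (hsq : ∀ g ∈ G, g * g = 1) (hmul : ∀ g ∈ G, ∀ h ∈ G, g * h ∈ G)
    (hcard : G.card = 2 ^ m) (hGV : ∀ g ∈ G, ∀ v ∈ V, g v ∈ V)
    (hgood : ∀ u ∈ V, ∀ v ∈ V, ∀ f g : E →ₗ[ℝ] ℝ, 0 < f u → (∀ w ∈ V, f w ≤ f u) → (∀ w ∈ V, f w ≤ f v) →
      0 < g u → (∀ w ∈ V, g w ≤ g u) → (∀ w ∈ V, g w ≤ g (-v)) → False) :
    ∃ k : ℕ, (0 < m → 1 ≤ k) ∧ m + k ≤ k ^ 2 + 1 ∧ 2 ^ k ≤ V.card := by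
  classical
  have hcomm : ∀ g ∈ G, ∀ h ∈ G, g * h = h * g := by
    intro g hg h hh
    have h1 := hsq _ (hmul g hg h hh)
    have h2 := hsq g hg
    have h3 := hsq h hh
    calc g * h = g * (g * h * (g * h)) * h := by rw [h1, mul_one]
      _ = (g * g) * (h * g) * (h * h) := by simp only [mul_assoc]
      _ = h * g := by rw [h2, h3, one_mul, mul_one]
  obtain ⟨x, h, hx0, hhG, hrel, _⟩ := sys G hsq hcomm m G (Finset.Subset.refl G) hmul hcard
  let π : E → Fin m → ℝ := fun v j => x j v
  let W := V.image π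
  have hW : ∀ v ∈ V, π v ∈ W := fun v hv => Finset.mem_image_of_mem π hv
  have hcardW : W.card ≤ V.card := Finset.card_image_le
  have hs : ∀ w ∈ W, ∀ i, Function.update w i (-w i) ∈ W := by
    intro w hw i
    obtain ⟨v, hv, rfl⟩ := Finset.mem_image.1 hw
    have : Function.update (π v) i (-(π v) i) = π (h i v) := by
      ext j
      by_cases hj : j = i
      · subst hj
        simp [π, hrel]
      · have hji : ¬ i = j := fun h => hj h.symm
        simp [π, hrel, hj, hji]
    rw [this]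
    exact hW _ (hGV _ (hhG i) v hv)
  have hne : ∀ i, ∃ w ∈ W, w i ≠ 0 := by
    intro i
    by_contra hc
    push Not at hc
    apply hx0 i
    have : ∀ v ∈ V, x i v = 0 := fun v hv => hc _ (hW v hv)
    refine LinearMap.ext_on hspan (fun v hv => ?_)
    rw [this v hv]; rfl
  let k := W.sup fun w => (univ.filter fun i => w i ≠ 0).card
  have hk : ∀ w ∈ W, (univ.filter fun i => w i ≠ 0).card ≤ k := fun w hw =>
    Finset.le_sup (f := fun w : Fin m → ℝ => (univ.filter fun i => w i ≠ 0).card) hw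
  have hWne : W.Nonempty := hV.image π
  obtain ⟨w0, hw0, hw0k⟩ := Finset.exists_mem_eq_sup W hWne fun w => (univ.filter fun i => w i ≠ 0).card
  have hmk : m + k ≤ k ^ 2 + 1 := by
    refine comb W hs hne hk ?_
    intro u' hu' v' hv' z z' h1 h2 h3 h4 h5 h6
    obtain ⟨u, hu, rfl⟩ := Finset.mem_image.1 hu'
    obtain ⟨v, hv, rfl⟩ := Finset.mem_image.1 hv'
    have hf : ∀ (z : Fin m → ℝ) (w : E), (∑ i, z i • x i) w = ∑ i, z i * π w i := by
      intro z w
      simp [π, LinearMap.sum_apply]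
    refine hgood u hu v hv (∑ i, z i • x i) (∑ i, z' i • x i) ?_ ?_ ?_ ?_ ?_ ?_
    · rw [hf]; exact h1
    · intro w hw; rw [hf, hf]; exact h2 _ (hW w hw)
    · intro w hw; rw [hf, hf]; exact h3 _ (hW w hw)
    · rw [hf]; exact h6
    · intro w hw; rw [hf, hf]; exact h4 _ (hW w hw)
    · intro w hw
      rw [hf, hf]
      have : ∑ i, z' i * π (-v) i = ∑ i, z' i * (-(π v) i) := by
        refine Finset.sum_congr rfl fun i _ => ?_
        simp [π]
      rw [this]; exact h5 _ (hW w hw)
  have h2k : 2 ^ k ≤ V.card := by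
    have := flips W hs hw0
    rw [← hw0k] at this
    exact this.trans hcardW
  refine ⟨k, fun hm => ?_, hmk, h2k⟩
  obtain ⟨w, hw, hwi⟩ := hne ⟨0, hm⟩
  refine le_trans (Finset.card_pos.2 ⟨⟨0, hm⟩, ?_⟩) (hk w hw)
  exact Finset.mem_filter.2 ⟨Finset.mem_univ _, hwi⟩

/-- the bound in closed form -/
theorem closed {m k N : ℕ} (hk : 1 ≤ k) (h1 : m + k ≤ k ^ 2 + 1) (h2 : 2 ^ k ≤ N) :
    (2:ℝ) ^ ((1 + Real.sqrt (4 * m - 3)) / 2) ≤ N := by
  have hle : (1 + Real.sqrt (4 * m - 3)) / 2 ≤ k := by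
    have hs : Real.sqrt (4 * m - 3) ≤ 2 * k - 1 := by
      have hk' : (1:ℝ) ≤ k := by exact_mod_cast hk
      rw [Real.sqrt_le_left (by linarith)]
      have h1' : (m:ℝ) + k ≤ k ^ 2 + 1 := by exact_mod_cast h1
      nlinarith
    linarith
  calc (2:ℝ) ^ ((1 + Real.sqrt (4 * m - 3)) / 2) ≤ (2:ℝ) ^ (k : ℝ) :=
        Real.rpow_le_rpow_of_exponent_le (by norm_num) hle
    _ = ((2 ^ k : ℕ) : ℝ) := by rw [Real.rpow_natCast]; push_cast; rfl
    _ ≤ N := by exact_mod_cast h2

end Pool.Agent.URP
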