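import Mathlib

/-!
# URP / Scal: generic scalars

Finitely many vectors can be multiplied by scalars from given intervals so that those which lie on a
common hyperplane not through the origin are linearly independent.
-/

namespace Pool.Agent.URP

open Finset

theorem gen_scal {d : ℕ} (a b : (Fin d → ℝ) → ℝ) (W : Finset (Fin d → ℝ)) :
    (∀ w ∈ W, 0 < a w ∧ a w < b w) →
    ∃ c : (Fin d → ℝ) → ℝ, (∀ w ∈ W, a w < c w ∧ c w < b w) ∧
      ∀ T ⊆ W, ∀ y : Fin d → ℝ, (∀ w ∈ T, c w * (w ⬝ᵥ y) = 1) →
        LinearIndepOn ℝ id (T : Set (Fin d → ℝ)) := by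
  classical
  induction W using Finset.induction_on with
  | empty =>
    intro _
    refine ⟨fun _ => 0, by simp, ?_⟩
    intro T hT y _
    rw [Finset.subset_empty.1 hT]
    simp
  | insert w0 W hw0 ih =>
    intro hab
    obtain ⟨c, hc1, hc2⟩ := ih fun w hw => hab w (Finset.mem_insert_of_mem hw)
    -- the forced values
    have hs : ∀ T : Finset (Fin d → ℝ), ∃ s : ℝ, T ⊆ W → w0 ∈ Submodule.span ℝ (T : Set (Fin d → ℝ)) →
        ∀ y : Fin d → ℝ, (∀ w ∈ T, c w * (w ⬝ᵥ y) = 1) → w0 ⬝ᵥ y = s := by
      intro T
      by_cases h : T ⊆ W ∧ w0 ∈ Submodule.span ℝ (T : Set (Fin d → ℝ))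
      · obtain ⟨hT, hm⟩ := h
        obtain ⟨f, _, hf⟩ := Submodule.mem_span_finset.1 hm
        refine ⟨∑ w ∈ T, f w / c w, fun _ _ y hy => ?_⟩
        rw [← hf, sum_dotProduct]
        refine Finset.sum_congr rfl fun w hw => ?_
        have hcw : 0 < c w := (hab w (Finset.mem_insert_of_mem (hT hw))).1.trans (hc1 w (hT hw)).1
        have h1 : w ⬝ᵥ y = 1 / c w := by
          rw [eq_div_iff hcw.ne', mul_comm]; exact hy w hw
        rw [smul_dotProduct, h1, smul_eq_mul]; ring
      · exact ⟨0, fun h1 h2 => absurd ⟨h1, h2⟩ h⟩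
    choose s hs using hs
    obtain ⟨c0, hc0, hc0'⟩ := (Set.Ioo_infinite (hab w0 (Finset.mem_insert_self _ _)).2).exists_notMem_finset
      (W.powerset.image fun T => 1 / s T)
    refine ⟨Function.update c w0 c0, ?_, ?_⟩
    · intro w hw
      rcases Finset.mem_insert.1 hw with rfl | hw
      · rw [Function.update_self]; exact hc0
      · have : w ≠ w0 := fun h => hw0 (h ▸ hw)
        rw [Function.update_of_ne this]; exact hc1 w hw
    · intro T hT y hy
      by_cases hmem : w0 ∈ T
      · have hT' : T.erase w0 ⊆ W := by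
          intro w hw
          rcases Finset.mem_insert.1 (hT (Finset.mem_of_mem_erase hw)) with h | h
          · exact absurd h (Finset.ne_of_mem_erase hw)
          · exact h
        have hy' : ∀ w ∈ T.erase w0, c w * (w ⬝ᵥ y) = 1 := by
          intro w hw
          have := hy w (Finset.mem_of_mem_erase hw)
          rwa [Function.update_of_ne (Finset.ne_of_mem_erase hw)] at this
        have hli := hc2 _ hT' y hy'
        have hy0 : c0 * (w0 ⬝ᵥ y) = 1 := by
          have := hy w0 hmem
          rwa [Function.update_self] at this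
        have hT2 : (T : Set (Fin d → ℝ)) = insert w0 ((T.erase w0 : Finset (Fin d → ℝ)) : Set (Fin d → ℝ)) := by
          rw [← Finset.coe_insert, Finset.insert_erase hmem]
        rw [hT2, linearIndepOn_insert (by simp)]
        refine ⟨hli, fun hspan => ?_⟩
        rw [Set.image_id, id] at hspan
        have h1 := hs _ hT' hspan y hy'
        apply hc0'
        refine Finset.mem_image.2 ⟨T.erase w0, Finset.mem_powerset.2 hT', ?_⟩
        rw [← h1]
        have : w0 ⬝ᵥ y ≠ 0 := by
          intro h; rw [h, mul_zero] at hy0; exact zero_ne_one hy0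
        field_simp
        linarith
      · have hT' : T ⊆ W := by
          intro w hw
          rcases Finset.mem_insert.1 (hT hw) with h | h
          · exact absurd (h ▸ hw) hmem
          · exact h
        refine hc2 T hT' y fun w hw => ?_
        have := hy w hw
        have hne : w ≠ w0 := fun h => hmem (h ▸ hw)
        rwa [Function.update_of_ne hne] at this

end Pool.Agent.URP
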