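import Pool.Agent.URP.Stab
import Pool.Agent.URP.Scal
import Pool.Agent.URP.Comb
import Pool.Agent.URP.Face
import Pool.Agent.CsPoly.Poly

/-!
# URP / Herm: from an unconditional non-square set to an unconditional simplicial polytope

`R` is a finite set, invariant under the sign changes of the coordinates.  All restrictions of its
members to subsets of their supports are multiplied by scalars near `1` which decrease with the
support and are generic otherwise.
-/

namespace Pool.Agent.URP

open Finset

variable {d : ℕ}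

/-- the support -/
noncomputable def supp (v : Fin d → ℝ) : Finset (Fin d) := univ.filter fun i => v i ≠ 0

/-- restriction to the coordinates in `S` -/
def rst (S : Finset (Fin d)) (v : Fin d → ℝ) : Fin d → ℝ := fun i => if i ∈ S then v i else 0

/-- all non-zero restrictions of the members of `R` -/
noncomputable def cl (R : Finset (Fin d → ℝ)) : Finset (Fin d → ℝ) := by
  classical
  exact (R.biUnion fun r => (supp r).powerset.image fun S => rst S r).erase 0

theorem mem_cl {R : Finset (Fin d → ℝ)} {w : Fin d → ℝ} :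
    w ∈ cl R ↔ w ≠ 0 ∧ ∃ r ∈ R, ∃ S ⊆ supp r, rst S r = w := by
  classical
  unfold cl
  simp only [Finset.mem_erase, Finset.mem_biUnion, Finset.mem_image, Finset.mem_powerset]

theorem card_cl {R : Finset (Fin d → ℝ)} {k : ℕ} (hk : ∀ r ∈ R, (supp r).card ≤ k) :
    (cl R).card ≤ R.card * 2 ^ k := by
  classical
  unfold cl
  refine (Finset.card_erase_le).trans ?_
  refine Finset.card_biUnion_le_card_mul _ _ _ fun r hr => ?_
  refine Finset.card_image_le.trans ?_
  rw [Finset.card_powerset]
  exact Nat.pow_le_pow_right (by norm_num) (hk r hr)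

theorem rst_supp (v : Fin d → ℝ) : rst (supp v) v = v := by
  ext i
  simp only [rst, supp, Finset.mem_filter, Finset.mem_univ, true_and]
  split_ifs with h
  · rfl
  · exact (not_not.1 h).symm

theorem flip_rst (T S : Finset (Fin d)) (v : Fin d → ℝ) : flip T (rst S v) = rst S (flip T v) := by
  ext i
  simp only [flip, rst]
  split_ifs <;> simp

theorem supp_flip (T : Finset (Fin d)) (v : Fin d → ℝ) : supp (flip T v) = supp v := by
  ext i
  simp only [supp, flip, Finset.mem_filter, Finset.mem_univ, true_and]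
  split_ifs <;> simp

theorem flip_ne {T : Finset (Fin d)} {v : Fin d → ℝ} (h : v ≠ 0) : flip T v ≠ 0 := by
  intro h0
  apply h
  ext i
  have := congrFun h0 i
  simp only [flip, Pi.zero_apply] at this
  split_ifs at this with hi
  · simpa using this
  · exact this

theorem flip_cl {R : Finset (Fin d → ℝ)} (hs : ∀ v ∈ R, ∀ i, Function.update v i (-v i) ∈ R)
    (T : Finset (Fin d)) {w : Fin d → ℝ} (hw : w ∈ cl R) : flip T w ∈ cl R := by
  obtain ⟨h0, r, hr, S, hS, rfl⟩ := mem_cl.1 hw
  refine mem_cl.2 ⟨flip_ne h0, flip T r, flip_mem hs T r hr, S, by rw [supp_flip]; exact hS, ?_⟩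
  rw [flip_rst]

theorem rst_cl {R : Finset (Fin d → ℝ)} {w : Fin d → ℝ} (hw : w ∈ cl R) {S : Finset (Fin d)}
    (hS : S ⊆ supp w) (h0 : rst S w ≠ 0) : rst S w ∈ cl R := by
  obtain ⟨_, r, hr, S', hS', rfl⟩ := mem_cl.1 hw
  have hSS : S ⊆ S' := by
    intro i hi
    have := hS hi
    simp only [supp, rst, Finset.mem_filter, Finset.mem_univ, true_and] at this
    by_contra hc
    simp [hc] at this
  refine mem_cl.2 ⟨h0, r, hr, S, hSS.trans hS', ?_⟩
  ext i
  simp only [rst]
  by_cases hi : i ∈ S
  · simp [hi, hSS hi]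
  · simp [hi]

/-- the average of two sign changes -/
theorem rst_avg (S : Finset (Fin d)) (r z : Fin d → ℝ) :
    2 * (rst S r ⬝ᵥ z) = r ⬝ᵥ z + flip Sᶜ r ⬝ᵥ z := by
  simp only [dotProduct]
  rw [Finset.mul_sum, ← Finset.sum_add_distrib]
  refine Finset.sum_congr rfl fun i _ => ?_
  simp only [rst, flip, Finset.mem_compl]
  by_cases hi : i ∈ S
  · simp [hi]; ring
  · simp [hi]

theorem good_cl {R : Finset (Fin d → ℝ)} (hs : ∀ v ∈ R, ∀ i, Function.update v i (-v i) ∈ R)
    (hpos : ∀ x : Fin d → ℝ, x ≠ 0 → ∃ r ∈ R, 0 < r ⬝ᵥ x)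
    (hns : ∀ u ∈ R, ∀ v ∈ R, ∀ x y : Fin d → ℝ, x ≠ 0 → y ≠ 0 → (∀ w ∈ R, w ⬝ᵥ x ≤ u ⬝ᵥ x) →
      (∀ w ∈ R, w ⬝ᵥ x ≤ v ⬝ᵥ x) → (∀ w ∈ R, w ⬝ᵥ y ≤ u ⬝ᵥ y) → (∀ w ∈ R, w ⬝ᵥ y ≤ -v ⬝ᵥ y) → False) :
    CsPoly.Good (fun k : {w // w ∈ cl R} => (k : Fin d → ℝ)) := by
  classical
  have hR : ∀ r ∈ R, r ≠ 0 → r ∈ cl R := fun r hr h0 =>
    mem_cl.2 ⟨h0, r, hr, supp r, Finset.Subset.refl _, rst_supp r⟩
  have hnegR : ∀ r ∈ R, -r ∈ R := by
    intro r hr
    have := flip_mem hs univ r hr
    have h2 : flip univ r = -r := by ext i; simp [flip]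
    rwa [h2] at this
  have hbd : ∀ (x : Fin d → ℝ) (c : ℝ), (∀ j : {w // w ∈ cl R}, |(j : Fin d → ℝ) ⬝ᵥ x| ≤ c) → 0 ≤ c →
      ∀ r ∈ R, r ⬝ᵥ x ≤ c := by
    intro x c h hc r hr
    by_cases h0 : r = 0
    · rw [h0, zero_dotProduct]; exact hc
    · exact (le_abs_self _).trans (h ⟨r, hR r hr h0⟩)
  -- tops of the restrictions are tops of the members
  have htop : ∀ (r : Fin d → ℝ), r ∈ R → ∀ (S : Finset (Fin d)) (x : Fin d → ℝ),
      (∀ r' ∈ R, r' ⬝ᵥ x ≤ rst S r ⬝ᵥ x) → ∀ r' ∈ R, r' ⬝ᵥ x ≤ r ⬝ᵥ x := by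
    intro r hr S x h r' hr'
    have h1 := rst_avg S r x
    have h2 := h _ (flip_mem hs Sᶜ r hr)
    have h3 := h r' hr'
    linarith
  have hrneg : ∀ (S : Finset (Fin d)) (r : Fin d → ℝ), rst S (-r) = -rst S r := by
    intro S r
    ext i
    simp only [rst, Pi.neg_apply]
    split_ifs <;> simp
  refine ⟨?_, ?_⟩
  · intro x hx
    obtain ⟨r, hr, h⟩ := hpos x hx
    have h0 : r ≠ 0 := by rintro rfl; simp at h
    exact ⟨⟨r, hR r hr h0⟩, h.ne'⟩
  · rintro ⟨k, hk⟩ ⟨l, hl⟩ x y hx hy a1 a2 a3 a4
    simp only at a1 a2 a3 a4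
    obtain ⟨_, r, hr, S, _, rfl⟩ := mem_cl.1 hk
    obtain ⟨_, q, hq, T, _, rfl⟩ := mem_cl.1 hl
    have n1 := (abs_nonneg _).trans (a1 ⟨_, hk⟩)
    have n2 := (abs_nonneg _).trans (a2 ⟨_, hk⟩)
    have n3 := (abs_nonneg _).trans (a3 ⟨_, hk⟩)
    have n4 := (abs_nonneg _).trans (a4 ⟨_, hk⟩)
    have b1 := htop r hr S x (hbd x _ a1 n1)
    have b2 := htop q hq T x (hbd x _ a2 n2)
    have b3 := htop r hr S y (hbd y _ a3 n3)
    have b4 := htop (-q) (hnegR q hq) T y (by
      intro r' hr'
      rw [hrneg, neg_dotProduct]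
      exact hbd y _ a4 n4 r' hr')
    exact hns r hr q hq x y hx hy b1 b2 b3 b4

/-- absolute values of the coordinates -/
def av (v : Fin d → ℝ) : Fin d → ℝ := fun i => |v i|

theorem av_flip (T : Finset (Fin d)) (v : Fin d → ℝ) : av (flip T v) = av v := by
  ext i
  simp only [av, flip]
  split_ifs <;> simp

theorem av_eq_flip (v : Fin d → ℝ) : ∃ T, flip T v = av v := by
  classical
  refine ⟨univ.filter fun i => v i < 0, ?_⟩
  ext i
  simp only [flip, av, Finset.mem_filter, Finset.mem_univ, true_and]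
  split_ifs with h
  · rw [abs_of_neg h]
  · rw [abs_of_nonneg (not_lt.1 h)]

theorem supp_av (v : Fin d → ℝ) : supp (av v) = supp v := by
  ext i
  simp [supp, av]

theorem exists_unc {R : Finset (Fin d → ℝ)} {k : ℕ} (hs : ∀ v ∈ R, ∀ i, Function.update v i (-v i) ∈ R)
    (hk : ∀ r ∈ R, (supp r).card ≤ k) (hpos : ∀ x : Fin d → ℝ, x ≠ 0 → ∃ r ∈ R, 0 < r ⬝ᵥ x)
    (hns : ∀ u ∈ R, ∀ v ∈ R, ∀ x y : Fin d → ℝ, x ≠ 0 → y ≠ 0 → (∀ w ∈ R, w ⬝ᵥ x ≤ u ⬝ᵥ x) →
      (∀ w ∈ R, w ⬝ᵥ x ≤ v ⬝ᵥ x) → (∀ w ∈ R, w ⬝ᵥ y ≤ u ⬝ᵥ y) → (∀ w ∈ R, w ⬝ᵥ y ≤ -v ⬝ᵥ y) → False) :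
    ∃ X : Finset (Fin d → ℝ), Submodule.span ℝ (X : Set (Fin d → ℝ)) = ⊤ ∧
      (∀ v ∈ X, ∀ i, Function.update v i (-v i) ∈ X) ∧ Simplicial X ∧
      (∀ u ∈ X, ∀ v ∈ X, ¬(Edge X u v ∧ Edge X u (-v))) ∧ X.card ≤ R.card * 2 ^ k := by
  classical
  have hgood := good_cl hs hpos hns
  obtain ⟨δ, hδ, hst⟩ := stable hgood
  -- a bound for the norms
  let C : ℝ := ∑ w ∈ cl R, ‖w‖
  have hC : ∀ w ∈ cl R, ‖w‖ ≤ C := fun w hw =>
    Finset.single_le_sum (f := fun w : Fin d → ℝ => ‖w‖) (fun _ _ => norm_nonneg _) hw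
  have hC0 : 0 ≤ C := Finset.sum_nonneg fun _ _ => norm_nonneg _
  let ρ : ℝ := δ / (C + 1)
  have hρ : 0 < ρ := div_pos hδ (by linarith)
  have hρC : ∀ t : ℝ, |t| < ρ → ∀ w ∈ cl R, |t| * ‖w‖ < δ := by
    intro t ht w hw
    have h1 : |t| * ‖w‖ ≤ |t| * C := mul_le_mul_of_nonneg_left (hC w hw) (abs_nonneg _)
    have h2 : |t| * (C + 1) < ρ * (C + 1) := mul_lt_mul_of_pos_right ht (by linarith)
    have h3 : ρ * (C + 1) = δ := div_mul_cancel₀ _ (by linarith)
    nlinarith [abs_nonneg t]
  -- the intervals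
  let D : ℝ := 2 * d + 2
  have hD : 0 < D := by positivity
  let a : (Fin d → ℝ) → ℝ := fun w => 1 + ρ * (2 * (d - (supp w).card)) / D
  let b : (Fin d → ℝ) → ℝ := fun w => 1 + ρ * (2 * (d - (supp w).card) + 1) / D
  have hcardd : ∀ w : Fin d → ℝ, ((supp w).card : ℝ) ≤ d := by
    intro w
    have := Finset.card_le_univ (supp w)
    rw [Fintype.card_fin] at this
    exact_mod_cast this
  have ha1 : ∀ w, 1 ≤ a w := by
    intro w
    have : 0 ≤ ρ * (2 * (d - (supp w).card)) / D := by
      have := hcardd w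
      have h2 : 0 ≤ 2 * ((d:ℝ) - (supp w).card) := by linarith
      positivity
    simp only [a]; linarith
  have hb1 : ∀ w, b w < 1 + ρ := by
    intro w
    have h0 : (0:ℝ) ≤ (supp w).card := Nat.cast_nonneg _
    have : ρ * (2 * (d - (supp w).card) + 1) / D < ρ := by
      rw [div_lt_iff₀ hD]
      have : 2 * ((d:ℝ) - (supp w).card) + 1 < D := by simp only [D]; linarith
      exact mul_lt_mul_of_pos_left this hρ
    simp only [b]; linarith
  have hab : ∀ w, a w < b w := by
    intro w
    have : ρ * (2 * (d - (supp w).card)) / D < ρ * (2 * (d - (supp w).card) + 1) / D := by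
      apply div_lt_div_of_pos_right _ hD
      apply mul_lt_mul_of_pos_left _ hρ
      linarith
    simp only [a, b]; linarith
  have hba : ∀ w w', (supp w').card < (supp w).card → b w < a w' := by
    intro w w' h
    have h' : ((supp w').card : ℝ) + 1 ≤ (supp w).card := by exact_mod_cast h
    have : ρ * (2 * (d - (supp w).card) + 1) / D < ρ * (2 * (d - (supp w').card)) / D := by
      apply div_lt_div_of_pos_right _ hD
      apply mul_lt_mul_of_pos_left _ hρ
      linarith
    simp only [a, b]; linarith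
  let W := (cl R).filter fun w => ∀ i, 0 ≤ w i
  obtain ⟨c, hc1, hc2⟩ := gen_scal a b W fun w _ => ⟨lt_of_lt_of_le one_pos (ha1 w), hab w⟩
  have hflip : ∀ T : Finset (Fin d), ∀ w ∈ cl R, flip T w ∈ cl R := fun T w hw => flip_cl hs T hw
  have hav : ∀ w ∈ cl R, av w ∈ W := by
    intro w hw
    obtain ⟨T, hT⟩ := av_eq_flip w
    refine Finset.mem_filter.2 ⟨by rw [← hT]; exact hflip T w hw, fun i => abs_nonneg _⟩
  let g : (Fin d → ℝ) → Fin d → ℝ := fun w => c (av w) • w
  let X := (cl R).image g
  have hgX : ∀ w ∈ cl R, g w ∈ X := fun w hw => Finset.mem_image_of_mem g hw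
  have hcpos : ∀ w ∈ cl R, 1 < c (av w) ∧ c (av w) < 1 + ρ := by
    intro w hw
    have := hc1 _ (hav w hw)
    exact ⟨lt_of_le_of_lt (ha1 _) this.1, this.2.trans (hb1 _)⟩
  have hgf : ∀ T w, g (flip T w) = flip T (g w) := by
    intro T w
    ext i
    simp only [g, av_flip, Pi.smul_apply, smul_eq_mul, flip]
    split_ifs <;> ring
  -- the perturbed family is good
  have hG : CsPoly.Good (fun k : {w // w ∈ cl R} => g k) := by
    refine hst _ fun k => ?_
    rw [dist_eq_norm]
    have h1 : g k - (k : Fin d → ℝ) = (c (av k) - 1) • (k : Fin d → ℝ) := by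
      simp only [g, sub_smul, one_smul]
    rw [h1, norm_smul, Real.norm_eq_abs]
    have h2 := hcpos k k.2
    apply hρC _ _ _ k.2
    rw [abs_of_pos (by linarith)]
    linarith
  have hXflip : ∀ v ∈ X, ∀ T, flip T v ∈ X := by
    intro v hv T
    obtain ⟨w, hw, rfl⟩ := Finset.mem_image.1 hv
    rw [← hgf]
    exact hgX _ (hflip T w hw)
  have hneg : ∀ v ∈ X, -v ∈ X := by
    intro v hv
    have := hXflip v hv univ
    have h2 : flip univ v = -v := by ext i; simp [flip]
    rwa [h2] at this
  refine ⟨X, ?_, ?_, ?_, ?_, ?_⟩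
  · -- spanning
    have hsing : ∀ i, Pi.single i (1:ℝ) ∈ Submodule.span ℝ (X : Set (Fin d → ℝ)) := by
      intro i
      obtain ⟨r, hr, hri⟩ := hpos (Pi.single i 1) (by
        intro h; have := congrFun h i; simp at this)
      rw [dotProduct_single, mul_one] at hri
      have hrst : rst {i} r = r i • Pi.single i (1:ℝ) := by
        ext j
        by_cases hj : j = i
        · subst hj; simp [rst]
        · simp [rst, hj]
      have hw : rst {i} r ∈ cl R := by
        refine mem_cl.2 ⟨?_, r, hr, {i}, ?_, rfl⟩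
        · intro h
          have := congrFun h i
          simp [rst] at this
          linarith
        · rw [Finset.singleton_subset_iff]
          simp [supp, hri.ne']
      have h1 : g (rst {i} r) ∈ Submodule.span ℝ (X : Set (Fin d → ℝ)) :=
        Submodule.subset_span (hgX _ hw)
      have h2 : Pi.single i (1:ℝ) = (c (av (rst {i} r)) * r i)⁻¹ • g (rst {i} r) := by
        have h3 : c (av (rst {i} r)) * r i ≠ 0 :=
          mul_ne_zero (by have := hcpos _ hw; linarith) hri.ne'
        simp only [g]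
        rw [smul_smul, hrst, smul_smul]
        rw [← hrst]
        have h4 : (c (av (rst {i} r)) * r i)⁻¹ * c (av (rst {i} r)) * r i = 1 := by
          rw [mul_assoc, inv_mul_cancel₀ h3]
        rw [h4, one_smul]
      rw [h2]
      exact Submodule.smul_mem _ _ h1
    rw [Submodule.eq_top_iff']
    intro v
    have : v = ∑ i, v i • Pi.single i (1:ℝ) := by
      ext j
      simp [Finset.sum_apply, Pi.single_apply]
    rw [this]
    exact Submodule.sum_mem _ fun i _ => Submodule.smul_mem _ _ (hsing i)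
  · intro v hv i
    have := hXflip v hv {i}
    have h2 : flip {i} v = Function.update v i (-v i) := by
      ext j
      by_cases hj : j = i
      · subst hj; simp [flip]
      · simp [flip, hj]
    rwa [h2] at this
  · -- simplicial
    rintro S ⟨f, s, hs0, hle, rfl⟩
    obtain ⟨z, hz⟩ := CsPoly.dot_rep f
    have hmem : ∀ w ∈ cl R, f (g w) = s → ∀ i, w i ≠ 0 → 0 < w i * z i := by
      intro w hw hfw i hwi
      by_contra hcon
      rcases lt_or_eq_of_le (not_lt.1 hcon) with h | h
      · -- flip the sign of coordinate `i`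
        have h1 := hle _ (hgX _ (hflip {i} w hw))
        rw [hgf, hz] at h1
        rw [hz] at hfw
        have h2 : flip {i} (g w) ⬝ᵥ z = g w ⬝ᵥ z - 2 * (g w i * z i) := by
          simp only [dotProduct]
          have : ∀ j, flip {i} (g w) j * z j = g w j * z j - (if j = i then 2 * (g w i * z i) else 0) := by
            intro j
            by_cases hj : j = i
            · subst hj; simp [flip]; ring
            · simp [flip, hj]
          rw [Finset.sum_congr rfl fun j _ => this j, Finset.sum_sub_distrib]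
          simp
        have h3 : g w i * z i = c (av w) * (w i * z i) := by
          simp only [g, Pi.smul_apply, smul_eq_mul]; ring
        have h4 := (hcpos w hw).1
        have h5 : c (av w) * (w i * z i) < 0 := mul_neg_of_pos_of_neg (by linarith) h
        linarith
      · -- `z i = 0`: restrict
        have hzi : z i = 0 := (mul_eq_zero.1 h).resolve_left hwi
        let w' := rst ((supp w).erase i) w
        have hdot : w' ⬝ᵥ z = w ⬝ᵥ z := by
          simp only [dotProduct]
          refine Finset.sum_congr rfl fun j _ => ?_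
          by_cases hj : j = i
          · subst hj; rw [hzi, mul_zero, mul_zero]
          · by_cases hwj : w j = 0
            · simp [w', rst, hwj]
            · simp [w', rst, hj, supp, hwj]
        have hcw := (hcpos w hw).1
        have hwz : c (av w) * (w ⬝ᵥ z) = s := by
          rw [← hfw, hz]; simp only [g]; rw [smul_dotProduct, smul_eq_mul]
        have hwz0 : 0 < w ⬝ᵥ z := by
          by_contra hneg
          have : c (av w) * (w ⬝ᵥ z) ≤ 0 := mul_nonpos_of_nonneg_of_nonpos (by linarith) (not_lt.1 hneg)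
          linarith
        have hw'0 : w' ≠ 0 := by
          intro h0
          rw [h0, zero_dotProduct] at hdot
          linarith
        have hw' : w' ∈ cl R := rst_cl hw (Finset.erase_subset _ _) hw'0
        have hsup : (supp (av w')).card < (supp (av w)).card := by
          rw [supp_av, supp_av]
          apply Finset.card_lt_card
          have hsub : supp w' ⊆ (supp w).erase i := by
            intro j hj
            simp only [supp, w', rst, Finset.mem_filter, Finset.mem_univ, true_and] at hj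
            by_contra hc
            apply hj
            rw [if_neg]
            simpa [supp] using hc
          refine lt_of_le_of_lt hsub (Finset.erase_ssubset ?_)
          simp [supp, hwi]
        have h1 := hle _ (hgX _ hw')
        rw [hz] at h1
        simp only [g] at h1
        rw [smul_dotProduct, smul_eq_mul, hdot] at h1
        have h2 : c (av w) < c (av w') := by
          have e1 := (hc1 _ (hav w hw)).2
          have e2 := (hc1 _ (hav w' hw')).1
          exact e1.trans ((hba _ _ hsup).trans e2)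
        have := mul_lt_mul_of_pos_right h2 hwz0
        linarith
    -- the signs
    let σ : Fin d → ℝ := fun i => if 0 ≤ z i then 1 else -1
    have hσ : ∀ i, σ i * σ i = 1 := by
      intro i; simp only [σ]; split_ifs <;> norm_num
    let T := W.filter fun t => c t * (t ⬝ᵥ (s⁻¹ • av z)) = 1
    have hT := hc2 T (Finset.filter_subset _ _) (s⁻¹ • av z) fun t ht => (Finset.mem_filter.1 ht).2
    -- members of the face
    have hrep : ∀ x ∈ X, f x = s → ∃ t ∈ T, x = fun i => σ i * (c t * t i) := by
      intro x hx hfx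
      obtain ⟨w, hw, rfl⟩ := Finset.mem_image.1 hx
      have hpos := hmem w hw hfx
      have hwσ : ∀ i, w i = σ i * av w i := by
        intro i
        by_cases h0 : w i = 0
        · simp [av, h0]
        · have h1 := hpos i h0
          simp only [σ, av]
          split_ifs with h2
          · have : 0 < w i := by
              by_contra hn
              have : w i * z i ≤ 0 := mul_nonpos_of_nonpos_of_nonneg (not_lt.1 hn) h2
              linarith
            rw [abs_of_pos this, one_mul]
          · have : w i < 0 := by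
              by_contra hn
              have : w i * z i ≤ 0 := mul_nonpos_of_nonneg_of_nonpos (not_lt.1 hn) (not_le.1 h2).le
              linarith
            rw [abs_of_neg this]; ring
      refine ⟨av w, Finset.mem_filter.2 ⟨hav w hw, ?_⟩, ?_⟩
      · have h1 : av w ⬝ᵥ av z = w ⬝ᵥ z := by
          simp only [dotProduct, av]
          refine Finset.sum_congr rfl fun i _ => ?_
          by_cases h0 : w i = 0
          · simp [h0]
          · rw [← abs_mul, abs_of_pos (hpos i h0)]
        rw [dotProduct_smul, smul_eq_mul, h1]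
        have h2 : c (av w) * (w ⬝ᵥ z) = s := by
          rw [← hfx, hz]; simp only [g]; rw [smul_dotProduct, smul_eq_mul]
        calc c (av w) * (s⁻¹ * (w ⬝ᵥ z)) = s⁻¹ * (c (av w) * (w ⬝ᵥ z)) := by ring
          _ = 1 := by rw [h2, inv_mul_cancel₀ hs0.ne']
      · ext i
        simp only [g, Pi.smul_apply, smul_eq_mul]
        rw [hwσ i]
        have : av (fun i => w i) = av w := rfl
        ring
    -- affine independence
    rw [affineIndependent_iff]
    intro u l hl0 hl j hj
    choose t ht hxt using fun x : {w | w ∈ X ∧ f w = s} => hrep x.1 x.2.1 x.2.2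
    have hinj : Function.Injective t := by
      intro x y hxy
      apply Subtype.ext
      rw [hxt x, hxt y, hxy]
    have hli := (hT : LinearIndependent ℝ fun x : (T : Set (Fin d → ℝ)) => (x : Fin d → ℝ)).comp
      (fun x => (⟨t x, ht x⟩ : (T : Set (Fin d → ℝ)))) (fun x y hxy => hinj (by simpa using hxy))
    have hsum : ∑ x ∈ u, (l x * c (t x)) • t x = 0 := by
      ext i
      have h1 := congrFun hl i
      simp only [Finset.sum_apply, Pi.smul_apply, smul_eq_mul, Pi.zero_apply] at h1 ⊢
      calc ∑ x ∈ u, l x * c (t x) * t x i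
          = ∑ x ∈ u, σ i * (l x * (x : Fin d → ℝ) i) := by
            refine Finset.sum_congr rfl fun x _ => ?_
            have h2 := congrFun (hxt x) i
            rw [h2]
            linear_combination (-(l x * c (t x) * t x i)) * hσ i
        _ = 0 := by rw [← Finset.mul_sum, h1, mul_zero]
    have h3 := linearIndependent_iff'.1 hli u (fun x => l x * c (t x)) hsum j hj
    have h4 : t j ∈ W := (Finset.mem_filter.1 (ht j)).1
    have h5 := (hc1 _ h4).1
    rcases mul_eq_zero.1 h3 with h6 | h6
    · exact h6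
    · exfalso
      have := ha1 (t j)
      linarith
  · -- no cs 4-cycle
    rintro u hu v hv ⟨⟨_, f, s, hs0, hle, hset⟩, ⟨_, f', s', hs0', hle', hset'⟩⟩
    obtain ⟨z, hz⟩ := CsPoly.dot_rep f
    obtain ⟨z', hz'⟩ := CsPoly.dot_rep f'
    obtain ⟨wu, hwu, rfl⟩ := Finset.mem_image.1 hu
    obtain ⟨wv, hwv, rfl⟩ := Finset.mem_image.1 hv
    have e1 : f (g wu) = s := by
      have : g wu ∈ ({g wu, g wv} : Set (Fin d → ℝ)) := by simp
      rw [hset] at this; exact this.2
    have e2 : f (g wv) = s := by
      have : g wv ∈ ({g wu, g wv} : Set (Fin d → ℝ)) := by simp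
      rw [hset] at this; exact this.2
    have e3 : f' (g wu) = s' := by
      have : g wu ∈ ({g wu, -g wv} : Set (Fin d → ℝ)) := by simp
      rw [hset'] at this; exact this.2
    have e4 : f' (-g wv) = s' := by
      have : -g wv ∈ ({g wu, -g wv} : Set (Fin d → ℝ)) := by simp
      rw [hset'] at this; exact this.2
    have habs : ∀ (h : (Fin d → ℝ) →ₗ[ℝ] ℝ) (t : ℝ), (∀ w ∈ X, h w ≤ t) → ∀ w ∈ cl R, |h (g w)| ≤ t := by
      intro h t ht w hw
      rw [abs_le]
      have h1 := ht _ (hgX w hw)
      have h2 := ht _ (hneg _ (hgX w hw))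
      rw [map_neg] at h2
      constructor <;> linarith
    have hz0 : z ≠ 0 := by
      rintro rfl
      rw [hz, dotProduct_zero] at e1; linarith
    have hz0' : z' ≠ 0 := by
      rintro rfl
      rw [hz', dotProduct_zero] at e3; linarith
    refine hG.ns ⟨wu, hwu⟩ ⟨wv, hwv⟩ z z' hz0 hz0' ?_ ?_ ?_ ?_
    · intro j
      have := habs f s hle j j.2
      rw [hz] at this e1
      simp only; rw [e1]; exact this
    · intro j
      have := habs f s hle j j.2
      rw [hz] at this e2
      simp only; rw [e2]; exact this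
    · intro j
      have := habs f' s' hle' j j.2
      rw [hz'] at this e3
      simp only; rw [e3]; exact this
    · intro j
      have := habs f' s' hle' j j.2
      rw [map_neg, hz'] at e4
      rw [hz'] at this
      simp only; rw [e4]; exact this
  · exact Finset.card_image_le.trans (card_cl hk)

end Pool.Agent.URP
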