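import Pool.Agent.URP.Brou

/-!
# URP / Nash: Nash equilibria of bimatrix games

From Brouwer's theorem by soft max and compactness.
-/

namespace Pool.Agent.URP

open Finset

theorem nash_approx {I J : Type} [Fintype I] [Fintype J] [Nonempty I] [Nonempty J] (a b : I → J → ℝ)
    (n : ℕ) : ∃ (z : I → ℝ) (l : J → ℝ), (∀ i, 0 ≤ z i) ∧ ∑ i, z i = 1 ∧ (∀ j, 0 ≤ l j) ∧ ∑ j, l j = 1 ∧
      (∀ j j', l j ≤ Real.exp (-(n * (∑ i, z i * b i j' - ∑ i, z i * b i j)))) ∧
      (∀ i i', z i ≤ Real.exp (-(n * (∑ j, l j * a i j - ∑ j, l j * a i' j)))) := by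
  classical
  let S : EuclideanSpace ℝ I → ℝ := fun y => ∑ i, Real.exp (y i)
  have hS : ∀ y, 0 < S y := fun y => Finset.sum_pos (fun i _ => Real.exp_pos _) Finset.univ_nonempty
  let Z : EuclideanSpace ℝ I → I → ℝ := fun y i => Real.exp (y i) / S y
  let c : EuclideanSpace ℝ I → J → ℝ := fun y j => ∑ i, Z y i * b i j
  let T : EuclideanSpace ℝ I → ℝ := fun y => ∑ j, Real.exp (n * c y j)
  have hT : ∀ y, 0 < T y := fun y => Finset.sum_pos (fun i _ => Real.exp_pos _) Finset.univ_nonempty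
  let l : EuclideanSpace ℝ I → J → ℝ := fun y j => Real.exp (n * c y j) / T y
  let m : EuclideanSpace ℝ I → I → ℝ := fun y i => ∑ j, l y j * a i j
  have hpr : ∀ i, ContDiff ℝ 1 (fun y : EuclideanSpace ℝ I => y i) := fun i => by fun_prop
  have hSc : ContDiff ℝ 1 S := ContDiff.sum fun i _ => (hpr i).exp
  have hZc : ∀ i, ContDiff ℝ 1 (fun y => Z y i) := fun i => (hpr i).exp.div hSc (fun y => (hS y).ne')
  have hcc : ∀ j, ContDiff ℝ 1 (fun y => c y j) := fun j =>
    ContDiff.sum fun i _ => (hZc i).mul contDiff_const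
  have hec : ∀ j, ContDiff ℝ 1 (fun y => Real.exp (n * c y j)) := fun j =>
    (contDiff_const.mul (hcc j)).exp
  have hTc : ContDiff ℝ 1 T := ContDiff.sum fun j _ => hec j
  have hlc : ∀ j, ContDiff ℝ 1 (fun y => l y j) := fun j => (hec j).div hTc (fun y => (hT y).ne')
  have hmc : ∀ i, ContDiff ℝ 1 (fun y => m y i) := fun i =>
    ContDiff.sum fun j _ => (hlc j).mul contDiff_const
  have hZ0 : ∀ y i, 0 ≤ Z y i := fun y i => div_nonneg (Real.exp_pos _).le (hS y).le
  have hZ1 : ∀ y, ∑ i, Z y i = 1 := fun y => by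
    show ∑ i, Real.exp (y i) / S y = 1
    rw [← Finset.sum_div, div_self (hS y).ne']
  have hl0 : ∀ y j, 0 ≤ l y j := fun y j => div_nonneg (Real.exp_pos _).le (hT y).le
  have hl1 : ∀ y, ∑ j, l y j = 1 := fun y => by
    show ∑ j, Real.exp (n * c y j) / T y = 1
    rw [← Finset.sum_div, div_self (hT y).ne']
  let A : ℝ := ∑ i, ∑ j, |a i j|
  have hA : ∀ y i, |m y i| ≤ A := by
    intro y i
    calc |m y i| ≤ ∑ j, |l y j * a i j| := Finset.abs_sum_le_sum_abs _ _
      _ ≤ ∑ j, |a i j| := by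
        refine Finset.sum_le_sum fun j _ => ?_
        rw [abs_mul, abs_of_nonneg (hl0 y j)]
        have : l y j ≤ 1 := by
          rw [← hl1 y]; exact Finset.single_le_sum (fun j _ => hl0 y j) (Finset.mem_univ j)
        nlinarith [abs_nonneg (a i j)]
      _ ≤ A := Finset.single_le_sum (f := fun i => ∑ j, |a i j|)
        (fun i _ => Finset.sum_nonneg fun j _ => abs_nonneg _) (Finset.mem_univ i)
  have hA0 : 0 ≤ A := Finset.sum_nonneg fun i _ => Finset.sum_nonneg fun j _ => abs_nonneg _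
  let e : (I → ℝ) ≃L[ℝ] EuclideanSpace ℝ I := (EuclideanSpace.equiv I ℝ).symm
  let F : EuclideanSpace ℝ I → EuclideanSpace ℝ I := fun y => e (fun i => -(n * m y i))
  have hFc : ContDiff ℝ 1 F := by
    refine e.contDiff.comp ?_
    rw [contDiff_pi]
    exact fun i => (contDiff_const.mul (hmc i)).neg
  obtain ⟨y, hy⟩ := brouwer F hFc (M := ‖(e : (I → ℝ) →L[ℝ] EuclideanSpace ℝ I)‖ * (n * A)) (by
    intro y
    refine ((e : (I → ℝ) →L[ℝ] EuclideanSpace ℝ I).le_opNorm _).trans ?_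
    refine mul_le_mul_of_nonneg_left ?_ (norm_nonneg _)
    rw [pi_norm_le_iff_of_nonneg (by positivity)]
    intro i
    rw [Real.norm_eq_abs, abs_neg, abs_mul, abs_of_nonneg (Nat.cast_nonneg n)]
    exact mul_le_mul_of_nonneg_left (hA y i) (Nat.cast_nonneg n))
  have hyi : ∀ i, y i = -(n * m y i) := by
    intro i
    have := congrArg (fun v : EuclideanSpace ℝ I => v i) hy
    exact this.symm
  refine ⟨Z y, l y, hZ0 y, hZ1 y, hl0 y, hl1 y, ?_, ?_⟩
  · intro j j'
    show Real.exp (n * c y j) / T y ≤ Real.exp (-(n * (c y j' - c y j)))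
    have h1 : Real.exp (n * c y j') ≤ T y :=
      Finset.single_le_sum (f := fun j => Real.exp (n * c y j)) (fun _ _ => (Real.exp_pos _).le) (Finset.mem_univ j')
    calc Real.exp (n * c y j) / T y ≤ Real.exp (n * c y j) / Real.exp (n * c y j') :=
          div_le_div_of_nonneg_left (Real.exp_pos _).le (Real.exp_pos _) h1
      _ = Real.exp (-(n * (c y j' - c y j))) := by rw [← Real.exp_sub]; ring_nf
  · intro i i'
    show Real.exp (y i) / S y ≤ Real.exp (-(n * (m y i - m y i')))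
    have h1 : Real.exp (y i') ≤ S y :=
      Finset.single_le_sum (f := fun i => Real.exp (y i)) (fun _ _ => (Real.exp_pos _).le) (Finset.mem_univ i')
    calc Real.exp (y i) / S y ≤ Real.exp (y i) / Real.exp (y i') :=
          div_le_div_of_nonneg_left (Real.exp_pos _).le (Real.exp_pos _) h1
      _ = Real.exp (-(n * (m y i - m y i'))) := by
          rw [← Real.exp_sub, hyi i, hyi i']; ring_nf

/-- a limit argument: exponentially small when a limit is positive -/
theorem lim_zero {u d : ℕ → ℝ} {φ : ℕ → ℕ} (hφ : StrictMono φ) {x δ : ℝ}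
    (hu : Filter.Tendsto u Filter.atTop (nhds x)) (hd : Filter.Tendsto d Filter.atTop (nhds δ))
    (hδ : 0 < δ) (h : ∀ n, u n ≤ Real.exp (-(φ n * d n))) : x ≤ 0 := by
  have h1 : Filter.Tendsto (fun n => (φ n : ℝ) * d n) Filter.atTop Filter.atTop :=
    (tendsto_natCast_atTop_atTop.comp hφ.tendsto_atTop).atTop_mul_pos hδ hd
  have h2 : Filter.Tendsto (fun n => Real.exp (-(φ n * d n))) Filter.atTop (nhds 0) :=
    Real.tendsto_exp_neg_atTop_nhds_zero.comp h1
  exact le_of_tendsto_of_tendsto' hu h2 h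

/-- **Nash equilibria** of bimatrix games (one player minimises `a`, the other one maximises `b`). -/
theorem nash {I J : Type} [Fintype I] [Fintype J] [Nonempty I] [Nonempty J] (a b : I → J → ℝ) :
    ∃ (z : I → ℝ) (l : J → ℝ), (∀ i, 0 ≤ z i) ∧ ∑ i, z i = 1 ∧ (∀ j, 0 ≤ l j) ∧ ∑ j, l j = 1 ∧
      (∀ j, 0 < l j → ∀ j', ∑ i, z i * b i j' ≤ ∑ i, z i * b i j) ∧
      (∀ i, 0 < z i → ∀ i', ∑ j, l j * a i j ≤ ∑ j, l j * a i' j) := by
  classical
  choose z l hz0 hz1 hl0 hl1 hl hz using nash_approx a b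
  have hcomp : IsCompact (stdSimplex ℝ I ×ˢ stdSimplex ℝ J) :=
    (isCompact_stdSimplex ℝ I).prod (isCompact_stdSimplex ℝ J)
  obtain ⟨⟨z', l'⟩, hp, φ, hφ, hlim⟩ := hcomp.tendsto_subseq (x := fun n => (z n, l n))
    (fun n => ⟨⟨hz0 n, hz1 n⟩, ⟨hl0 n, hl1 n⟩⟩)
  obtain ⟨⟨p0, p1⟩, ⟨q0, q1⟩⟩ := hp
  have hzl : ∀ i, Filter.Tendsto (fun n => z (φ n) i) Filter.atTop (nhds (z' i)) := fun i =>
    (tendsto_pi_nhds.1 ((Prod.tendsto_iff _ _).1 hlim).1) i
  have hll : ∀ j, Filter.Tendsto (fun n => l (φ n) j) Filter.atTop (nhds (l' j)) := fun j =>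
    (tendsto_pi_nhds.1 ((Prod.tendsto_iff _ _).1 hlim).2) j
  refine ⟨z', l', p0, p1, q0, q1, ?_, ?_⟩
  · intro j hj j'
    by_contra hc
    push Not at hc
    have hd : Filter.Tendsto (fun n => ∑ i, z (φ n) i * b i j' - ∑ i, z (φ n) i * b i j) Filter.atTop
        (nhds (∑ i, z' i * b i j' - ∑ i, z' i * b i j)) :=
      (tendsto_finsetSum _ fun i _ => (hzl i).mul_const _).sub
        (tendsto_finsetSum _ fun i _ => (hzl i).mul_const _)
    have := lim_zero hφ (hll j) hd (by linarith) (fun n => hl (φ n) j j')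
    linarith
  · intro i hi i'
    by_contra hc
    push Not at hc
    have hd : Filter.Tendsto (fun n => ∑ j, l (φ n) j * a i j - ∑ j, l (φ n) j * a i' j) Filter.atTop
        (nhds (∑ j, l' j * a i j - ∑ j, l' j * a i' j)) :=
      (tendsto_finsetSum _ fun j _ => (hll j).mul_const _).sub
        (tendsto_finsetSum _ fun j _ => (hll j).mul_const _)
    have := lim_zero hφ (hzl i) hd (by linarith) (fun n => hz (φ n) i i')
    linarith

end Pool.Agent.URP
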