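import Pool.Agent.CsPoly.Perturb

/-!
# URP / Stab: good families stay good under small perturbations

(The open set of `CsPoly.Good.exists_genPos`, helper79.)
-/

namespace Pool.Agent.URP

open Finset Pool.Agent.CsPoly

theorem stable {K : Type*} [Finite K] {d : ℕ} {V0 : K → Fin d → ℝ} (h : Good V0) :
    ∃ δ > 0, ∀ V : K → Fin d → ℝ, (∀ k, dist (V k) (V0 k) < δ) → Good V := by
  classical
  have := Fintype.ofFinite K
  let U : Set (K → Fin d → ℝ) := (Flat K d)ᶜ ∩
    ⋂ q : K × K, ((Touch d q.1 q.2 1)ᶜ ∪ (Touch d q.1 q.2 (-1))ᶜ)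
  have hU : IsOpen U := by
    refine isClosed_flat.isOpen_compl.inter (isOpen_iInter_of_finite fun q => ?_)
    exact (isClosed_touch _ _ _).isOpen_compl.union (isClosed_touch _ _ _).isOpen_compl
  have h0 : V0 ∈ U := by
    refine ⟨?_, Set.mem_iInter.2 fun q => ?_⟩
    · rintro ⟨x, hx⟩
      obtain ⟨k, hk⟩ := h.span x.1 (sphere_ne_zero x)
      exact hk (hx k)
    · by_contra hc
      simp only [Set.mem_union, Set.mem_compl_iff, not_or, not_not] at hc
      obtain ⟨⟨x, hx1, hx2⟩, ⟨y, hy1, hy2⟩⟩ := hc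
      exact h.ns q.1 q.2 x.1 y.1 (sphere_ne_zero x) (sphere_ne_zero y) hx1
        (fun j => by simpa using hx2 j) hy1 (fun j => by simpa using hy2 j)
  obtain ⟨δ, hδ, hball⟩ := Metric.isOpen_iff.1 hU V0 h0
  refine ⟨δ, hδ, fun V hV => ?_⟩
  have hVU : V ∈ U := hball (by
    rw [Metric.mem_ball, dist_pi_lt_iff hδ]
    exact hV)
  refine ⟨?_, ?_⟩
  · intro x hx
    by_contra hc
    push Not at hc
    obtain ⟨u, c, hc0, hu⟩ := exists_sphere x hx
    exact hVU.1 ⟨u, fun j => by rw [hu, dot_scale, hc j, mul_zero]⟩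
  · intro k l x y hx hy a1 a2 a3 a4
    obtain ⟨u, c, hc0, hu⟩ := exists_sphere x hx
    obtain ⟨w, e, he0, hw⟩ := exists_sphere y hy
    rcases Set.mem_iInter.1 hVU.2 (k, l) with h1 | h1
    · apply h1
      refine ⟨u, fun j => ?_, fun j => ?_⟩
      · rw [hu, dot_scale, dot_scale, abs_mul, abs_of_pos hc0]
        exact mul_le_mul_of_nonneg_left (a1 j) hc0.le
      · rw [hu, dot_scale, dot_scale, abs_mul, abs_of_pos hc0, one_mul]
        exact mul_le_mul_of_nonneg_left (a2 j) hc0.le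
    · apply h1
      refine ⟨w, fun j => ?_, fun j => ?_⟩
      · rw [hw, dot_scale, dot_scale, abs_mul, abs_of_pos he0]
        exact mul_le_mul_of_nonneg_left (a3 j) he0.le
      · rw [hw, dot_scale, dot_scale, abs_mul, abs_of_pos he0]
        have := mul_le_mul_of_nonneg_left (a4 j) he0.le
        linarith

end Pool.Agent.URP
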